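import Pool.Agent.Helper19.TT.Param

/-!
Cubic graphs with a 2-factor having exactly two odd cycles.  (Problem MP_d067c8_co.)
-/

namespace Pool.Agent.Helper19.TT

open SimpleGraph

/-- The data from which the near-perfect matching is made. -/
structure ZData {V : Type*} (H : SimpleGraph V) (ν : V → V) (p p' q q' : V) : Prop where
  νν : ∀ v, ν (ν v) = v
  νp : ν p = p
  νq : ν q = q
  adj : ∀ v, v ≠ p → v ≠ q → H.Adj v (ν v)
  pp : H.Adj p p'
  qq : H.Adj q q'
  pq : p ≠ q
  p'q' : p' ≠ q'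
  p'q : p' ≠ q
  pq' : p ≠ q'
  two : ∀ v a, H.Adj v a → ∃ b, b ≠ a ∧ H.Adj v b ∧ ∀ c, H.Adj v c → c = a ∨ c = b

theorem ZData.exists_Z {V : Type*} {G H : SimpleGraph V} (hHG : H ≤ G) {ν : V → V}
    {p p' q q' : V} (h : ZData H ν p p' q q') :
    ∃ Z : G.Subgraph, Z.IsMatching ∧ Z.verts = {p', q'}ᶜ ∧
      ∀ v x, Z.Adj v x ↔ (H.Adj v x ∧ ν v ≠ x ∧ s(v, x) ≠ s(p, p') ∧ s(v, x) ≠ s(q, q')) := by
  have hp'p : p' ≠ p := h.pp.ne'
  have hq'q : q' ≠ q := h.qq.ne'
  have hno : ∀ p p' : V, ν p = p → H.Adj p p' → (p' ≠ p ∧ H.Adj p' (ν p')) →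
      ∀ x, H.Adj p' x → ν p' ≠ x → s(p', x) = s(p, p') := by
    intro p p' hp hpp hp' x hx1 hx2
    obtain ⟨b, hb1, hb2, hb3⟩ := h.two p' (ν p') hp'.2
    have h1 : p = b := by
      rcases hb3 p hpp.symm with h2 | h2
      · exfalso
        apply hp'.1
        rw [← h.νν p', ← h2, hp]
      · exact h2
    rcases hb3 x hx1 with h2 | h2
    · exact absurd h2.symm hx2
    · rw [h2, ← h1, Sym2.eq_swap]
  have hadjp' : H.Adj p' (ν p') := h.adj p' hp'p h.p'q
  have hadjq' : H.Adj q' (ν q') := h.adj q' h.pq'.symm hq'q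
  let Z : G.Subgraph :=
    { verts := {p', q'}ᶜ
      Adj := fun v x => H.Adj v x ∧ ν v ≠ x ∧ s(v, x) ≠ s(p, p') ∧ s(v, x) ≠ s(q, q')
      adj_sub := fun hvx => hHG hvx.1
      edge_vert := by
        rintro v x ⟨h1, h2, h3, h4⟩
        intro hv
        rcases hv with rfl | hv
        · exact h3 (hno p v h.νp h.pp ⟨hp'p, hadjp'⟩ x h1 h2)
        · rw [Set.mem_singleton_iff] at hv
          subst hv
          exact h4 (hno q v h.νq h.qq ⟨hq'q, hadjq'⟩ x h1 h2)
      symm := ⟨by
        rintro v x ⟨h1, h2, h3, h4⟩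
        refine ⟨h1.symm, ?_, ?_, ?_⟩
        · intro h5
          apply h2
          rw [← h5, h.νν]
        · rw [Sym2.eq_swap]
          exact h3
        · rw [Sym2.eq_swap]
          exact h4⟩ }
  refine ⟨Z, ?_, rfl, fun v x => Iff.rfl⟩
  intro v hv
  have hvp' : v ≠ p' := fun h1 => hv (by rw [h1]; exact Or.inl rfl)
  have hvq' : v ≠ q' := fun h1 => hv (by rw [h1]; exact Or.inr rfl)
  show ∃! w, H.Adj v w ∧ ν v ≠ w ∧ s(v, w) ≠ s(p, p') ∧ s(v, w) ≠ s(q, q')
  by_cases h1 : v = p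
  · subst h1
    obtain ⟨b, hb1, hb2, hb3⟩ := h.two v p' h.pp
    refine ⟨b, ⟨hb2, ?_, ?_, ?_⟩, ?_⟩
    · rw [h.νp]
      exact hb2.ne
    · intro h2
      rw [Sym2.eq_iff] at h2
      rcases h2 with h2 | h2
      · exact hb1 h2.2
      · exact hp'p h2.1.symm
    · intro h2
      rw [Sym2.eq_iff] at h2
      rcases h2 with h2 | h2
      · exact h.pq h2.1
      · exact h.pq' h2.1
    · rintro y ⟨hy1, hy2, hy3, hy4⟩
      rcases hb3 y hy1 with h2 | h2
      · rw [h2] at hy3
        exact absurd rfl hy3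
      · exact h2
  by_cases h2 : v = q
  · subst h2
    obtain ⟨b, hb1, hb2, hb3⟩ := h.two v q' h.qq
    refine ⟨b, ⟨hb2, ?_, ?_, ?_⟩, ?_⟩
    · rw [h.νq]
      exact hb2.ne
    · intro h2
      rw [Sym2.eq_iff] at h2
      rcases h2 with h2 | h2
      · exact h.pq h2.1.symm
      · exact h.p'q h2.1.symm
    · intro h2
      rw [Sym2.eq_iff] at h2
      rcases h2 with h2 | h2
      · exact hb1 h2.2
      · exact hq'q h2.1.symm
    · rintro y ⟨hy1, hy2, hy3, hy4⟩
      rcases hb3 y hy1 with h2 | h2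
      · rw [h2] at hy4
        exact absurd rfl hy4
      · exact h2
  obtain ⟨b, hb1, hb2, hb3⟩ := h.two v (ν v) (h.adj v h1 h2)
  refine ⟨b, ⟨hb2, hb1.symm, ?_, ?_⟩, ?_⟩
  · intro h3
    rw [Sym2.eq_iff] at h3
    rcases h3 with h3 | h3
    · exact h1 h3.1
    · exact hvp' h3.1
  · intro h3
    rw [Sym2.eq_iff] at h3
    rcases h3 with h3 | h3
    · exact h2 h3.1
    · exact hvq' h3.1
  · rintro y ⟨hy1, hy2, hy3, hy4⟩
    rcases hb3 y hy1 with h3 | h3
    · exact absurd h3.symm hy2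
    · exact h3

/-- The partner is adjacent. -/
theorem prt_adj {m : ℕ} {u i : ZMod (2 * m + 1)} (h : i ≠ u) :
    prt m u i = i + m ∨ prt m u i = i + (m + 1) := by
  have h0 : (2 * (m : ZMod (2 * m + 1)) + 1) = 0 := by
    have := two_m (m := m)
    push_cast at this
    exact this
  unfold prt poff
  split_ifs with h1 h2
  · exfalso
    apply h
    rw [ZMod.val_eq_zero] at h1
    exact sub_eq_zero.mp h1
  · left
    ring
  · right
    linear_combination (-1 : ZMod (2 * m + 1)) * h0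

theorem main_matching {V : Type*} [Fintype V] [DecidableEq V] (G : SimpleGraph V)
    (hG : ∀ v, (G.neighborSet v).ncard = 3) (H : SimpleGraph V) (hHG : H ≤ G)
    (hH : ∀ v, (H.neighborSet v).ncard = 2) (hodd : H.oddComponents.ncard = 2)
    (hK : ∃ K ∈ H.oddComponents, K.supp.ncard % 4 = 3) :
    ∃ Z : G.Subgraph, Z.IsMatching ∧ (∀ u v, Z.Adj u v → H.Adj u v) ∧
      (∃ s t, s ≠ t ∧ Z.verts = {s, t}ᶜ) ∧ (G.deleteEdges Z.edgeSet).Colorable 2 := by
  classical
  have hcyc : H.IsCycles := fun v _ => hH v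
  have hne : ∀ v, (H.neighborSet v).Nonempty := fun v =>
    Set.nonempty_of_ncard_ne_zero (by rw [hH v]; norm_num)
  have htwo : ∀ v a, H.Adj v a → ∃ b, b ≠ a ∧ H.Adj v b ∧ ∀ c, H.Adj v c → c = a ∨ c = b := by
    intro v a hva
    obtain ⟨x, y, hxy, hset⟩ := Set.ncard_eq_two.mp (hH v)
    have hmem : ∀ c, H.Adj v c ↔ c = x ∨ c = y := by
      intro c
      rw [← mem_neighborSet, hset]
      simp
    rcases (hmem a).mp hva with h1 | h1
    · exact ⟨y, by rw [h1]; exact hxy.symm, (hmem y).mpr (Or.inr rfl), fun c hc => by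
        rw [h1]; exact (hmem c).mp hc⟩
    · exact ⟨x, by rw [h1]; exact hxy, (hmem x).mpr (Or.inl rfl), fun c hc => by
        rw [h1]; exact ((hmem c).mp hc).symm⟩
  -- the third neighbour
  have hthird : ∀ v, ∃ w, (G.Adj v w ∧ ¬ H.Adj v w) ∧ ∀ x, G.Adj v x → ¬ H.Adj v x → x = w := by
    intro v
    have h1 : (G.neighborSet v \ H.neighborSet v).ncard = 1 := by
      have hsub : H.neighborSet v ⊆ G.neighborSet v := fun x hx => hHG hx
      rw [Set.ncard_sdiff hsub, hG v, hH v]
    obtain ⟨w, hw⟩ := Set.ncard_eq_one.mp h1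
    have hmem : ∀ c, (G.Adj v c ∧ ¬ H.Adj v c) ↔ c = w := by
      intro c
      have h2 : c ∈ G.neighborSet v \ H.neighborSet v ↔ c = w := by rw [hw]; simp
      exact h2
    exact ⟨w, (hmem w).mpr rfl, fun x hx1 hx2 => (hmem x).mp ⟨hx1, hx2⟩⟩
  choose μ' hμ1 hμ2 using hthird
  have hμμ : ∀ v, μ' (μ' v) = v := fun v =>
    (hμ2 (μ' v) v (hμ1 v).1.symm (fun h1 => (hμ1 v).2 h1.symm)).symm
  have hμne : ∀ v, μ' v ≠ v := fun v => (hμ1 v).1.ne'
  -- the two odd components
  obtain ⟨K1, hK1, hK1m⟩ := hK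
  obtain ⟨K2, hK12, hKset⟩ : ∃ K2, K1 ≠ K2 ∧ H.oddComponents = {K1, K2} := by
    obtain ⟨x, y, hxy, hset⟩ := Set.ncard_eq_two.mp hodd
    rw [hset] at hK1 ⊢
    rcases hK1 with h1 | h1
    · exact ⟨y, by rw [h1]; exact hxy, by rw [h1]⟩
    · rw [Set.mem_singleton_iff] at h1
      exact ⟨x, by rw [h1]; exact hxy.symm, by rw [h1, Set.pair_comm]⟩
  have hK2 : K2 ∈ H.oddComponents := by rw [hKset]; exact Or.inr rfl
  obtain ⟨m, hm⟩ : ∃ m, K1.supp.ncard = 2 * m + 1 := by
    obtain ⟨m, hm⟩ := hK1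
    exact ⟨m, hm⟩
  obtain ⟨k, hk⟩ : ∃ k, K2.supp.ncard = 2 * k + 1 := by
    obtain ⟨k, hk⟩ := hK2
    exact ⟨k, hk⟩
  have hmodd : Odd m := by
    rw [Nat.odd_iff]
    omega
  obtain ⟨hm1, eA, hAinj, hArange, hA1, hA2⟩ := exists_param_odd H hcyc hne K1 hm
  obtain ⟨hk1, eB, hBinj, hBrange, hB1, hB2⟩ := exists_param_odd H hcyc hne K2 hk
  have hdisj : ∀ v, v ∈ K1.supp → v ∉ K2.supp := by
    intro v h1 h2
    exact hK12 (h1.symm.trans h2)
  -- the pairing of the even components
  have hpair : ∀ c : H.ConnectedComponent, ∃ f : V → V, Even c.supp.ncard →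
      ∀ v ∈ c.supp, f v ∈ c.supp ∧ f (f v) = v ∧ H.Adj v (f v) := by
    intro c
    by_cases hc : Even c.supp.ncard
    · obtain ⟨f, hf⟩ := exists_pairing H hcyc hne c hc
      exact ⟨f, fun _ => hf⟩
    · exact ⟨id, fun h1 => absurd h1 hc⟩
  choose F hF using hpair
  have heven : ∀ v, v ∉ K1.supp → v ∉ K2.supp →
      Even (H.connectedComponentMk v).supp.ncard := by
    intro v h1 h2
    by_contra h3
    rw [Nat.not_even_iff_odd] at h3
    have h4 : H.connectedComponentMk v ∈ H.oddComponents := h3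
    rw [hKset] at h4
    rcases h4 with h4 | h4
    · exact h1 h4
    · exact h2 h4
  have hF' : ∀ v, v ∉ K1.supp → v ∉ K2.supp →
      H.connectedComponentMk (F (H.connectedComponentMk v) v) = H.connectedComponentMk v ∧
      F (H.connectedComponentMk v) (F (H.connectedComponentMk v) v) = v ∧
      H.Adj v (F (H.connectedComponentMk v) v) := by
    intro v h1 h2
    exact hF _ (heven v h1 h2) v rfl
  let W : Type _ := {v : V // v ∉ K1.supp ∧ v ∉ K2.supp}
  let s : W → W := fun v => ⟨F (H.connectedComponentMk v.1) v.1, by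
    obtain ⟨h1, h2, h3⟩ := hF' v.1 v.2.1 v.2.2
    constructor
    · intro h4
      exact v.2.1 (h1.symm.trans h4)
    · intro h4
      exact v.2.2 (h1.symm.trans h4)⟩
  have hs1 : ∀ v : W, (s v).1 = F (H.connectedComponentMk v.1) v.1 := fun v => rfl
  have hss : ∀ v, s (s v) = v := by
    intro v
    obtain ⟨h1, h2, h3⟩ := hF' v.1 v.2.1 v.2.2
    apply Subtype.ext
    rw [hs1, hs1, h1, h2]
  have hsadj : ∀ v : W, H.Adj v.1 (s v).1 := fun v => (hF' v.1 v.2.1 v.2.2).2.2
  have hsne : ∀ v, s v ≠ v := by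
    intro v h1
    have h2 := hsadj v
    rw [h1] at h2
    exact h2.ne rfl
  -- the parametrisation of all vertices
  let φ : Vt m k W → V := Sum.elim eA (Sum.elim eB Subtype.val)
  have hφA : ∀ i, φ (pA i) = eA i := fun i => rfl
  have hφB : ∀ i, φ (pB i) = eB i := fun i => rfl
  have hφC : ∀ z : W, φ (pC z) = z.1 := fun i => rfl
  have hAmem : ∀ i, eA i ∈ K1.supp := fun i => by rw [← hArange]; exact ⟨i, rfl⟩
  have hBmem : ∀ i, eB i ∈ K2.supp := fun i => by rw [← hBrange]; exact ⟨i, rfl⟩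
  have hφinj : Function.Injective φ := by
    intro x y hxy
    rcases x with i | j | z <;> rcases y with i' | j' | z'
    · exact congrArg _ (hAinj hxy)
    · exfalso
      have h1 : eA i = eB j' := hxy
      exact hdisj _ (hAmem i) (h1 ▸ hBmem j')
    · exfalso
      have h1 : eA i = z'.1 := hxy
      exact z'.2.1 (h1 ▸ hAmem i)
    · exfalso
      have h1 : eB j = eA i' := hxy
      exact hdisj _ (hAmem i') (h1 ▸ hBmem j)
    · exact congrArg _ (congrArg _ (hBinj hxy))
    · exfalso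
      have h1 : eB j = z'.1 := hxy
      exact z'.2.2 (h1 ▸ hBmem j)
    · exfalso
      have h1 : z.1 = eA i' := hxy
      exact z.2.1 (h1 ▸ hAmem i')
    · exfalso
      have h1 : z.1 = eB j' := hxy
      exact z.2.2 (h1 ▸ hBmem j')
    · exact congrArg _ (congrArg _ (Subtype.ext hxy))
  have hφsurj : Function.Surjective φ := by
    intro v
    by_cases h1 : v ∈ K1.supp
    · rw [← hArange] at h1
      obtain ⟨i, hi⟩ := h1
      exact ⟨pA i, hi⟩
    by_cases h2 : v ∈ K2.supp
    · rw [← hBrange] at h2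
      obtain ⟨i, hi⟩ := h2
      exact ⟨pB i, hi⟩
    exact ⟨pC ⟨v, h1, h2⟩, rfl⟩
  let Φ : Vt m k W ≃ V := Equiv.ofBijective φ ⟨hφinj, hφsurj⟩
  have hΦ : ∀ x, Φ x = φ x := fun x => rfl
  let μ : Vt m k W → Vt m k W := fun x => Φ.symm (μ' (Φ x))
  have hctx : Ctx μ s :=
    { hm := hm1
      hk := hk1
      μμ := by
        intro v
        simp only [μ, Equiv.apply_symm_apply, hμμ, Equiv.symm_apply_apply]
      μne := by
        intro v h1
        apply hμne (Φ v)
        have h2 := congrArg Φ h1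
        simpa only [μ, Equiv.apply_symm_apply] using h2
      ss := hss
      sne := hsne }
  obtain ⟨u, w, T, hT, hTB, hTA⟩ := exists_good hctx hmodd
  -- the vertex `p'`
  obtain ⟨a, ha1, ha2⟩ : ∃ a, T (pA a) = false ∧ H.Adj (eA u) (eA a) := by
    rcases hTA with h1 | h1
    · exact ⟨_, h1, hA2 u⟩
    · exact ⟨_, h1, hA1 u⟩
  set ν : V → V := fun v => Φ (nu s u w (Φ.symm v)) with hν
  have hAB : ∀ i j, eA i ≠ eB j := fun i j h1 => hdisj _ (hAmem i) (h1 ▸ hBmem j)
  have hZD : ZData H ν (eA u) (eA a) (eB w) (eB (w + ((k : ZMod (2 * k + 1)) + 1))) :=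
    { νν := by
        intro v
        simp only [hν, Equiv.symm_apply_apply, hctx.nu_nu, Equiv.apply_symm_apply]
      νp := by
        have h1 : Φ.symm (eA u) = pA u := by
          rw [Equiv.symm_apply_eq]
          rfl
        simp only [hν, h1, nu_Au]
        rfl
      νq := by
        have h1 : Φ.symm (eB w) = pB w := by
          rw [Equiv.symm_apply_eq]
          rfl
        simp only [hν, h1, nu_Bw]
        rfl
      adj := by
        intro v hv1 hv2
        obtain ⟨x, rfl⟩ := Φ.surjective v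
        simp only [hν, Equiv.symm_apply_apply]
        rcases x with i | j | z
        · have h1 : i ≠ u := by
            rintro rfl
            exact hv1 rfl
          show H.Adj (eA i) (eA (prt m u i))
          rcases prt_adj h1 with h2 | h2
          · rw [h2]
            exact hA1 i
          · rw [h2]
            exact hA2 i
        · have h1 : j ≠ w := by
            rintro rfl
            exact hv2 rfl
          show H.Adj (eB j) (eB (prt k w j))
          rcases prt_adj h1 with h2 | h2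
          · rw [h2]
            exact hB1 j
          · rw [h2]
            exact hB2 j
        · exact hsadj z
      pp := ha2
      qq := hB2 w
      pq := hAB _ _
      p'q' := hAB _ _
      p'q := hAB _ _
      pq' := hAB _ _
      two := htwo }
  obtain ⟨Z, hZ1, hZ2, hZ3⟩ := hZD.exists_Z hHG
  refine ⟨Z, hZ1, fun v x hvx => ((hZ3 v x).mp hvx).1, ⟨_, _, hAB _ _, hZ2⟩, ?_⟩
  let c : V → Bool := fun v => T (Φ.symm v)
  have hcA : ∀ i, c (eA i) = T (pA i) := by
    intro i
    have h1 : Φ.symm (eA i) = pA i := by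
      rw [Equiv.symm_apply_eq]
      rfl
    simp only [c, h1]
  have hcB : ∀ i, c (eB i) = T (pB i) := by
    intro i
    have h1 : Φ.symm (eB i) = pB i := by
      rw [Equiv.symm_apply_eq]
      rfl
    simp only [c, h1]
  have hcol : ∀ v x, (G.deleteEdges Z.edgeSet).Adj v x → c v ≠ c x := by
    intro v x hvx
    rw [deleteEdges_adj] at hvx
    obtain ⟨hvx1, hvx2⟩ := hvx
    have hvx3 : ¬ Z.Adj v x := hvx2
    by_cases hH1 : H.Adj v x
    · by_cases h1 : ν v = x
      · have h2 : Φ.symm v ≠ pA u := by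
          intro h3
          have h4 : v = eA u := by rw [Equiv.symm_apply_eq] at h3; exact h3
          rw [h4, hZD.νp] at h1
          rw [h4, ← h1] at hH1
          exact hH1.ne rfl
        have h3 : Φ.symm v ≠ pB w := by
          intro h3
          have h4 : v = eB w := by rw [Equiv.symm_apply_eq] at h3; exact h3
          rw [h4, hZD.νq] at h1
          rw [h4, ← h1] at hH1
          exact hH1.ne rfl
        have h4 := hT.hν _ h2 h3
        have h5 : Φ.symm x = nu s u w (Φ.symm v) := by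
          rw [← h1]
          simp only [hν, Equiv.symm_apply_apply]
        show T (Φ.symm v) ≠ T (Φ.symm x)
        rw [h5, h4]
        cases T (Φ.symm v) <;> simp
      · by_cases h2 : s(v, x) = s(eA u, eA a)
        · rw [Sym2.eq_iff] at h2
          rcases h2 with ⟨rfl, rfl⟩ | ⟨rfl, rfl⟩
          · rw [hcA, hcA, hT.hA, ha1]
            exact Bool.noConfusion
          · rw [hcA, hcA, hT.hA, ha1]
            exact Bool.noConfusion
        by_cases h3 : s(v, x) = s(eB w, eB (w + ((k : ZMod (2 * k + 1)) + 1)))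
        · rw [Sym2.eq_iff] at h3
          rcases h3 with ⟨rfl, rfl⟩ | ⟨rfl, rfl⟩
          · rw [hcB, hcB, hT.hB, hTB]
            exact Bool.noConfusion
          · rw [hcB, hcB, hT.hB, hTB]
            exact Bool.noConfusion
        exact absurd ((hZ3 v x).mpr ⟨hH1, h1, h2, h3⟩) hvx3
    · have h1 := hμ2 v x hvx1 hH1
      have h2 : Φ.symm x = μ (Φ.symm v) := by
        simp only [μ, Equiv.apply_symm_apply, h1]
      show T (Φ.symm v) ≠ T (Φ.symm x)
      rw [h2, hT.hμ]
      cases T (Φ.symm v) <;> simp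
  have hC := (SimpleGraph.Coloring.mk c (fun {v x} hvx => hcol v x hvx)).colorable
  rwa [Fintype.card_bool] at hC

end Pool.Agent.Helper19.TT
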