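import Pool.Agent.Helper19.CF.Near
import Pool.Agent.Helper19.TT.Graph

/-!
From the near-perfect matching to the circular flow number: cyclically 5-edge-connected graphs
whose 5-edge-cuts separating two cycles have five vertices on one side.
(Problem MP_d067c8_co.)
-/

namespace Pool.Agent.Helper19.TT

open Finset Pool.Agent.Helper19.CF

variable {V : Type*} [Fintype V] [DecidableEq V]

/-- A triangle in a side with five vertices. -/
theorem tri (G : SimpleGraph V) [DecidableRel G.Adj] {Z : V → V → Prop}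
    (hsymm : ∀ u v, Z u v → Z v u) (hadj : ∀ u v, Z u v → G.Adj u v) {t : V} {Y : Finset V}
    (ht : t ∈ Y) (hN : ∀ v, G.Adj t v → v ∈ Y) (hZt : ∀ v, ¬ Z t v)
    (hZ : ∀ v ∈ Y, v ≠ t → ∃! w, Z v w) (hZY : ∀ v ∈ Y, ∀ w, Z v w → w ∈ Y)
    (hcard : Y.card = 5) (hreg : G.degree t = 3) :
    ∃ x ∈ Y, ∃ y ∈ Y, G.Adj t x ∧ G.Adj t y ∧ G.Adj x y := by
  have hNY : G.neighborFinset t ⊆ Y.erase t := by
    intro v hv
    rw [SimpleGraph.mem_neighborFinset] at hv
    exact mem_erase.mpr ⟨hv.ne', hN v hv⟩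
  have h1 : (Y.erase t \ G.neighborFinset t).card = 1 := by
    rw [card_sdiff_of_subset hNY, card_erase_of_mem ht, hcard,
      SimpleGraph.card_neighborFinset_eq_degree, hreg]
  obtain ⟨d, hd⟩ := card_eq_one.mp h1
  have hmem : ∀ v, v ∈ Y → v ≠ t → v ≠ d → G.Adj t v := by
    intro v hv1 hv2 hv3
    by_contra h2
    apply hv3
    have h3 : v ∈ Y.erase t \ G.neighborFinset t := by
      rw [mem_sdiff, mem_erase, SimpleGraph.mem_neighborFinset]
      exact ⟨⟨hv2, hv1⟩, h2⟩
    rw [hd, mem_singleton] at h3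
    exact h3
  have hdY : d ∈ Y.erase t \ G.neighborFinset t := by rw [hd]; exact mem_singleton_self d
  rw [mem_sdiff, mem_erase, SimpleGraph.mem_neighborFinset] at hdY
  obtain ⟨⟨hdt, hdY'⟩, hdN⟩ := hdY
  obtain ⟨a, ha, hauniq⟩ := hZ d hdY' hdt
  have haY := hZY d hdY' a ha
  have hat : a ≠ t := by
    rintro rfl
    exact hZt d (hsymm _ _ ha)
  have had : a ≠ d := (hadj _ _ ha).ne'
  have haN := hmem a haY hat had
  have h2 : ((G.neighborFinset t).erase a).card = 2 := by
    rw [card_erase_of_mem (by rw [SimpleGraph.mem_neighborFinset]; exact haN),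
      SimpleGraph.card_neighborFinset_eq_degree, hreg]
  obtain ⟨x, y, hxy, hset⟩ := card_eq_two.mp h2
  have hx : x ∈ (G.neighborFinset t).erase a := by rw [hset]; simp
  have hy : y ∈ (G.neighborFinset t).erase a := by rw [hset]; simp
  rw [mem_erase, SimpleGraph.mem_neighborFinset] at hx hy
  have hxY := hN x hx.2
  obtain ⟨z, hz, -⟩ := hZ x hxY hx.2.ne'
  have hzY := hZY x hxY z hz
  have hzt : z ≠ t := by
    rintro rfl
    exact hZt x (hsymm _ _ hz)
  have hzd : z ≠ d := by
    rintro rfl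
    exact hx.1 (hauniq x (hsymm _ _ hz))
  have hza : z ≠ a := by
    rintro rfl
    obtain ⟨b, hb, hbuniq⟩ := hZ z haY hat
    have h3 := hbuniq x (hsymm _ _ hz)
    have h4 := hbuniq d (hsymm _ _ ha)
    apply hdN
    rw [h4, ← h3]
    exact hx.2
  have hzy : z = y := by
    have h3 : z ∈ (G.neighborFinset t).erase a := by
      rw [mem_erase, SimpleGraph.mem_neighborFinset]
      exact ⟨hza, hmem z hzY hzt hzd⟩
    rw [hset, mem_insert, mem_singleton] at h3
    rcases h3 with h3 | h3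
    · exact absurd h3 (hadj _ _ hz).ne'
    · exact h3
  subst hzy
  exact ⟨x, hxY, z, hzY, hx.2, hy.2, hadj _ _ hz⟩

theorem dd_tri (G : SimpleGraph V) [DecidableRel G.Adj] (hreg : ∀ v, G.degree v = 3)
    {t x y : V} (h1 : G.Adj t x) (h2 : G.Adj t y) (h3 : G.Adj x y) :
    dd G {t, x, y} ≤ 3 := by
  have hcard : ({t, x, y} : Finset V).card = 3 := by
    rw [card_eq_three]
    exact ⟨t, x, y, h1.ne, h2.ne, h3.ne, rfl⟩
  have key : ∀ u ∈ ({t, x, y} : Finset V),
      (∑ v ∈ ({t, x, y} : Finset V)ᶜ, if G.Adj u v then 1 else 0) ≤ 1 := by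
    intro u hu
    have h4 : (∑ v ∈ ({t, x, y} : Finset V), if G.Adj u v then 1 else 0) +
        ∑ v ∈ ({t, x, y} : Finset V)ᶜ, (if G.Adj u v then 1 else 0) = 3 := by
      rw [sum_add_sum_compl, sum_adj, hreg u]
    have h5 : 2 ≤ ∑ v ∈ ({t, x, y} : Finset V), (if G.Adj u v then 1 else 0) := by
      rw [← card_filter]
      simp only [mem_insert, mem_singleton] at hu
      rcases hu with rfl | rfl | rfl
      · have h6 : ({x, y} : Finset V) ⊆ ({u, x, y} : Finset V).filter (fun v => G.Adj u v) := by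
          intro v hv
          simp only [mem_insert, mem_singleton] at hv
          rcases hv with rfl | rfl <;> simp [h1, h2]
        calc 2 = ({x, y} : Finset V).card := (card_pair h3.ne).symm
          _ ≤ _ := card_le_card h6
      · have h6 : ({t, y} : Finset V) ⊆ ({t, u, y} : Finset V).filter (fun v => G.Adj u v) := by
          intro v hv
          simp only [mem_insert, mem_singleton] at hv
          rcases hv with rfl | rfl <;> simp [h1.symm, h3]
        calc 2 = ({t, y} : Finset V).card := (card_pair h2.ne).symm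
          _ ≤ _ := card_le_card h6
      · have h6 : ({t, x} : Finset V) ⊆ ({t, x, u} : Finset V).filter (fun v => G.Adj u v) := by
          intro v hv
          simp only [mem_insert, mem_singleton] at hv
          rcases hv with rfl | rfl <;> simp [h2.symm, h3.symm]
        calc 2 = ({t, x} : Finset V).card := (card_pair h1.ne).symm
          _ ≤ _ := card_le_card h6
    omega
  calc dd G {t, x, y} ≤ ∑ u ∈ ({t, x, y} : Finset V), 1 := sum_le_sum key
    _ = 3 := by rw [sum_const, hcard]; rfl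

omit [Fintype V] [DecidableEq V] in
theorem hasCycleIn_mono {G : SimpleGraph V} {S S' : Set V} (h : S ⊆ S') (hS : HasCycleIn G S) :
    HasCycleIn G S' := by
  obtain ⟨u, p, hp, hp2⟩ := hS
  exact ⟨u, p, hp, fun x hx => h (hp2 x hx)⟩

/-- No triangle. -/
theorem no_tri (G : SimpleGraph V) [DecidableRel G.Adj] (hreg : ∀ v, G.degree v = 3)
    (hcut : ∀ S : Set V, HasCycleIn G S → HasCycleIn G Sᶜ → 5 ≤ cutSize G S)
    {Y : Finset V} (hY : HasCycleIn G (Y : Set V)ᶜ)
    {t x y : V} (ht : t ∈ Y) (hx : x ∈ Y) (hy : y ∈ Y)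
    (h1 : G.Adj t x) (h2 : G.Adj t y) (h3 : G.Adj x y) : False := by
  have hcard : ({t, x, y} : Finset V).card = 3 := by
    rw [card_eq_three]
    exact ⟨t, x, y, h1.ne, h2.ne, h3.ne, rfl⟩
  have hd := dd_tri G hreg h1 h2 h3
  have hc1 := hasCycleIn_of_dd_le G hreg {t, x, y} ⟨t, by simp⟩ (by rw [hcard]; exact hd)
  have hc2 : HasCycleIn G (({t, x, y} : Finset V) : Set V)ᶜ := by
    refine hasCycleIn_mono ?_ hY
    rw [Set.compl_subset_compl]
    intro v hv
    simp only [coe_insert, coe_singleton, Set.mem_insert_iff, Set.mem_singleton_iff] at hv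
    rcases hv with rfl | rfl | rfl
    · exact ht
    · exact hx
    · exact hy
  have h4 := hcut _ hc1 hc2
  rw [cutSize_coe] at h4
  omega

theorem flow_core (G : SimpleGraph V) [DecidableRel G.Adj] (hreg : G.IsRegularOfDegree 3)
    {Z : V → V → Prop} [DecidableRel Z] {s t : V} {b : V → ℤ} (hD : NearData G Z s t b)
    (hcut : CyclicallyEdgeConnected G 5)
    (hcut5 : ∀ Y : Finset V, Closed G Z s t b Y → HasCycleIn G (Y : Set V) →
      HasCycleIn G (Y : Set V)ᶜ → dd G Y = 5 → Y.card = 5 ∨ Yᶜ.card = 5) :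
    circularFlowNumber G ≤ 9 / 2 := by
  classical
  refine circularFlowNumber_le G (exists_adj G hreg s) (hasFlow_nine_halves hreg hD ?_)
  intro Y hY h1 h2
  have h3 := hcut _ h1 h2
  rw [cutSize_coe] at h3
  refine ⟨by omega, fun h4 => ?_⟩
  have hcompl : HasCycleIn G ((Yᶜ : Finset V) : Set V)ᶜ := by
    rw [coe_compl, compl_compl]
    exact h1
  rcases hcut5 Y hY h1 h2 h4 with h5 | h5
  · obtain ⟨x, hx, y, hy, h6, h7, h8⟩ := tri G hD.symm hD.adj hY.t_mem
      (fun v hv => hY.nbr_t hreg hD hv) hD.notT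
      (fun v hv hvt => hD.one v (fun h => hY.s_notMem (h ▸ hv)) hvt)
      (fun v hv w hvw => by
        by_contra hw
        exact (hY.out v hv w hw (hD.adj _ _ hvw)).1 hvw) h5 (hreg t)
    exact no_tri G hreg hcut h2 hY.t_mem hx hy h6 h7 h8
  · obtain ⟨x, hx, y, hy, h6, h7, h8⟩ := tri G hD.symm hD.adj (mem_compl.mpr hY.s_notMem)
      (fun v hv => mem_compl.mpr (hY.nbr_s hD hv)) hD.notS
      (fun v hv hvt => hD.one v hvt (fun h => mem_compl.mp hv (h ▸ hY.t_mem)))
      (fun v hv w hvw => by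
        rw [mem_compl] at hv ⊢
        intro hw
        exact (hY.out w hw v hv (hD.adj _ _ hvw).symm).1 (hD.symm _ _ hvw)) h5 (hreg s)
    exact no_tri G hreg hcut hcompl (mem_compl.mpr hY.s_notMem) hx hy h6 h7 h8

omit [Fintype V] [DecidableEq V] in
/-- The matching as data. -/
theorem data_of_matching (G : SimpleGraph V)
    (M : G.Subgraph) (hM : M.IsMatching) (s t : V) (hst : s ≠ t) (hv : M.verts = {s, t}ᶜ)
    (hbip : (G.deleteEdges M.edgeSet).Colorable 2) : ∃ b, NearData G M.Adj s t b := by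
  classical
  obtain ⟨C⟩ := hbip
  let c : V → Bool := fun v => decide (C v = 0)
  have hc : ∀ u v, G.Adj u v → ¬ M.Adj u v → c u ≠ c v := by
    intro u v h1 h2
    have h3 : (G.deleteEdges M.edgeSet).Adj u v := by
      rw [SimpleGraph.deleteEdges_adj]
      exact ⟨h1, h2⟩
    have h4 := C.valid h3
    simp only [c, ne_eq, decide_eq_decide]
    omega
  exact ⟨_, nearData_of_matching G M hM hst hv c hc⟩

theorem flow_part (G : SimpleGraph V) [DecidableRel G.Adj] (hreg : G.IsRegularOfDegree 3)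
    (M : G.Subgraph) (hM : M.IsMatching) (s t : V) (hst : s ≠ t) (hv : M.verts = {s, t}ᶜ)
    (hbip : (G.deleteEdges M.edgeSet).Colorable 2)
    (hcut : CyclicallyEdgeConnected G 5)
    (hcut5 : ∀ S : Set V, HasCycleIn G S → HasCycleIn G Sᶜ → cutSize G S = 5 →
      S.ncard = 5 ∨ Sᶜ.ncard = 5) :
    circularFlowNumber G ≤ 9 / 2 := by
  classical
  obtain ⟨b, hD⟩ := data_of_matching G M hM s t hst hv hbip
  refine flow_core G hreg hD hcut fun Y _ h1 h2 h4 => ?_
  rcases hcut5 _ h1 h2 (by rw [cutSize_coe]; exact h4) with h5 | h5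
  · rw [Set.ncard_coe_finset] at h5
    exact Or.inl h5
  · rw [← coe_compl, Set.ncard_coe_finset] at h5
    exact Or.inr h5

/-- A closed cut: the number of its edges outside `H`. -/
theorem closed_H (G : SimpleGraph V) [DecidableRel G.Adj] (hreg : G.IsRegularOfDegree 3)
    (H : SimpleGraph V) [DecidableRel H.Adj] (hHG : H ≤ G) (hH : H.IsRegularOfDegree 2)
    {Z : V → V → Prop} {s t : V} {b : V → ℤ} (h : NearData G Z s t b)
    (hZH : ∀ u v, Z u v → H.Adj u v) {Y : Finset V} (hY : Closed G Z s t b Y) :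
    (dd G Y : ℤ) - dd H Y = ∑ u ∈ Y, b u := by
  classical
  have h1 : ∀ u : V, (∑ v : V, ((if G.Adj u v then (1 : ℤ) else 0) -
      (if H.Adj u v then (1 : ℤ) else 0))) = 1 := by
    intro u
    rw [sum_sub_distrib]
    have h2 := sum_adj G u
    have h3 := sum_adj H u
    rw [hreg u] at h2
    rw [hH u] at h3
    have h4 : (∑ v : V, (if G.Adj u v then (1 : ℤ) else 0)) = 3 := by exact_mod_cast h2
    have h5 : (∑ v : V, (if H.Adj u v then (1 : ℤ) else 0)) = 2 := by exact_mod_cast h3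
    rw [h4, h5]
    norm_num
  have h2 : ∑ u ∈ Y, b u = ∑ u ∈ Y, ∑ v ∈ Y, ((if G.Adj u v then (1 : ℤ) else 0) -
      (if H.Adj u v then (1 : ℤ) else 0)) * b u +
      ∑ u ∈ Y, ∑ v ∈ Yᶜ, ((if G.Adj u v then (1 : ℤ) else 0) -
      (if H.Adj u v then (1 : ℤ) else 0)) * b u := by
    rw [← sum_add_distrib]
    refine sum_congr rfl fun u _ => ?_
    rw [sum_add_sum_compl, ← sum_mul, h1 u, one_mul]
  have h3 : ∑ u ∈ Y, ∑ v ∈ Y, ((if G.Adj u v then (1 : ℤ) else 0) -
      (if H.Adj u v then (1 : ℤ) else 0)) * b u = 0 := by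
    have h4 : ∑ u ∈ Y, ∑ v ∈ Y, ((if G.Adj u v then (1 : ℤ) else 0) -
        (if H.Adj u v then (1 : ℤ) else 0)) * b u =
        - ∑ u ∈ Y, ∑ v ∈ Y, ((if G.Adj u v then (1 : ℤ) else 0) -
        (if H.Adj u v then (1 : ℤ) else 0)) * b u := by
      conv_lhs => rw [sum_comm]
      rw [← sum_neg_distrib]
      refine sum_congr rfl fun u _ => ?_
      rw [← sum_neg_distrib]
      refine sum_congr rfl fun v _ => ?_
      by_cases h5 : G.Adj u v
      · by_cases h6 : H.Adj u v
        · simp [h5, h6, h5.symm, h6.symm]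
        · have h7 : ¬ H.Adj v u := fun h8 => h6 h8.symm
          have h8 := h.bip u v h5 (fun h9 => h6 (hZH u v h9))
          simp only [h5, h6, h5.symm, h7, if_true, if_false]
          linarith
      · have h6 : ¬ H.Adj u v := fun h7 => h5 (hHG h7)
        have h7 : ¬ G.Adj v u := fun h8 => h5 h8.symm
        have h8 : ¬ H.Adj v u := fun h9 => h6 h9.symm
        simp [h5, h6, h7, h8]
    linarith
  have h4 : ∑ u ∈ Y, ∑ v ∈ Yᶜ, ((if G.Adj u v then (1 : ℤ) else 0) -
      (if H.Adj u v then (1 : ℤ) else 0)) * b u = (dd G Y : ℤ) - dd H Y := by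
    unfold dd
    push_cast
    rw [← sum_sub_distrib]
    refine sum_congr rfl fun u hu => ?_
    rw [← sum_sub_distrib]
    refine sum_congr rfl fun v hv => ?_
    by_cases h5 : G.Adj u v
    · rw [(hY.out u hu v (mem_compl.mp hv) h5).2, mul_one]
    · have h6 : ¬ H.Adj u v := fun h7 => h5 (hHG h7)
      simp [h5, h6]
  rw [h2, h3, h4]
  ring

/-- Only the `5`-edge-cuts with exactly two edges in `H` matter. -/
theorem flow_part_two (G : SimpleGraph V) [DecidableRel G.Adj] (hreg : G.IsRegularOfDegree 3)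
    (H : SimpleGraph V) [DecidableRel H.Adj] (hHG : H ≤ G) (hH : H.IsRegularOfDegree 2)
    (M : G.Subgraph) (hM : M.IsMatching) (hMH : ∀ u v, M.Adj u v → H.Adj u v)
    (s t : V) (hst : s ≠ t) (hv : M.verts = {s, t}ᶜ)
    (hbip : (G.deleteEdges M.edgeSet).Colorable 2)
    (hcut : CyclicallyEdgeConnected G 5)
    (hcut5 : ∀ S : Set V, HasCycleIn G S → HasCycleIn G Sᶜ → cutSize G S = 5 →
      cutSize H S = 2 → S.ncard = 5 ∨ Sᶜ.ncard = 5) :
    circularFlowNumber G ≤ 9 / 2 := by
  classical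
  obtain ⟨b, hD⟩ := data_of_matching G M hM s t hst hv hbip
  refine flow_core G hreg hD hcut fun Y hY h1 h2 h4 => ?_
  have hH2 : cutSize H (Y : Set V) = 2 := by
    rw [cutSize_coe]
    have h5 := hY.dd_eq hreg hD
    have h6 := closed_H G hreg H hHG hH hD hMH hY
    omega
  rcases hcut5 _ h1 h2 (by rw [cutSize_coe]; exact h4) hH2 with h5 | h5
  · rw [Set.ncard_coe_finset] at h5
    exact Or.inl h5
  · rw [← coe_compl, Set.ncard_coe_finset] at h5
    exact Or.inr h5

end Pool.Agent.Helper19.TT
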