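import Mathlib

/-!
Alternating colourings of the union of two matchings, and alternating paths.
(Problem MP_d067c8_co.)
-/

namespace Pool.Agent.Helper19.TT

variable {V : Type*}

section color

variable {f g : V → V} (hf : ∀ v, f (f v) = v) (hg : ∀ v, g (g v) = v)

/-- The permutation `g ∘ f`. -/
def rot : Equiv.Perm V :=
  (Function.Involutive.toPerm g hg) * (Function.Involutive.toPerm f hf)

theorem rot_apply (v : V) : rot hf hg v = g (f v) := rfl

theorem f_zpow (i : ℤ) (v : V) : f ((rot hf hg ^ i) v) = (rot hf hg ^ (-i)) (f v) := by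
  have h1 : SemiconjBy (Function.Involutive.toPerm f hf) (rot hf hg) (rot hf hg)⁻¹ := by
    unfold SemiconjBy
    ext w
    simp only [Equiv.Perm.coe_mul, Function.comp_apply, Function.Involutive.coe_toPerm, rot_apply]
    rw [Equiv.Perm.eq_inv_iff_eq, rot_apply, hf, hg]
  have h2 := SemiconjBy.zpow_right h1 i
  have h3 := congrArg (fun p : Equiv.Perm V => p v) h2.eq
  simp only [Equiv.Perm.coe_mul, Function.comp_apply, Function.Involutive.coe_toPerm,
    inv_zpow'] at h3
  exact h3

theorem sameCycle_f {v w : V} (h : (rot hf hg).SameCycle v w) :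
    (rot hf hg).SameCycle (f v) (f w) := by
  obtain ⟨i, hi⟩ := h
  refine ⟨-i, ?_⟩
  rw [← f_zpow hf hg, hi]

theorem not_sameCycle (hf' : ∀ v, f v ≠ v) (hg' : ∀ v, g v ≠ v) (v : V) :
    ¬ (rot hf hg).SameCycle v (f v) := by
  rintro ⟨i, hi⟩
  rcases Int.even_or_odd' i with ⟨r, hr | hr⟩
  · apply hf' ((rot hf hg ^ r) v)
    rw [f_zpow hf hg, ← hi, hr, ← Equiv.Perm.mul_apply, ← zpow_add]
    congr 2
    ring
  · apply hg' (f ((rot hf hg ^ r) v))
    rw [← rot_apply hf hg, f_zpow hf hg, ← hi, hr]
    rw [← Equiv.Perm.mul_apply, ← Equiv.Perm.mul_apply, ← zpow_add, ← zpow_one_add]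
    congr 2
    ring

/-- The vertices `f v` and `g v` lie on one cycle of the rotation. -/
theorem sameCycle_fg (v : V) : (rot hf hg).SameCycle (f v) (g v) := by
  refine ⟨1, ?_⟩
  rw [zpow_one, rot_apply, hf]

include hf hg in
/-- Two fixed point free involutions have a common alternating colouring. -/
theorem exists_alternating (hf' : ∀ v, f v ≠ v) (hg' : ∀ v, g v ≠ v) :
    ∃ T : V → Bool, (∀ v, T (f v) = !T v) ∧ ∀ v, T (g v) = !T v := by
  classical
  let ρ := rot hf hg
  let st : Setoid V :=
    { r := fun v w => ρ.SameCycle v w ∨ ρ.SameCycle (f v) w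
      iseqv :=
        { refl := fun v => Or.inl (Equiv.Perm.SameCycle.refl _ _)
          symm := by
            rintro v w (h | h)
            · exact Or.inl h.symm
            · right
              have h1 := sameCycle_f hf hg h
              rw [hf] at h1
              exact h1.symm
          trans := by
            rintro a b c (h1 | h1) (h2 | h2)
            · exact Or.inl (h1.trans h2)
            · exact Or.inr ((sameCycle_f hf hg h1).trans h2)
            · exact Or.inr (h1.trans h2)
            · left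
              have h3 := sameCycle_f hf hg h1
              rw [hf] at h3
              exact h3.trans h2 } }
  let rep : V → V := fun v => (Quotient.mk st v).out
  have hrep : ∀ v, ρ.SameCycle (rep v) v ∨ ρ.SameCycle (f (rep v)) v := fun v =>
    Quotient.exact (s := st) (Quotient.out_eq (Quotient.mk st v))
  have hrepf : ∀ v, rep (f v) = rep v := by
    intro v
    have : (Quotient.mk st (f v)) = Quotient.mk st v := by
      apply Quotient.sound (s := st)
      right
      rw [hf]
    simp only [rep, this]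
  have hrepg : ∀ v, rep (g v) = rep v := by
    intro v
    have : (Quotient.mk st (g v)) = Quotient.mk st v := by
      apply Quotient.sound (s := st)
      right
      have h1 := sameCycle_f hf hg (sameCycle_fg hf hg v)
      rw [hf] at h1
      exact h1.symm
    simp only [rep, this]
  have hexcl : ∀ v, ¬ (ρ.SameCycle (rep v) v ∧ ρ.SameCycle (f (rep v)) v) := fun v h =>
    not_sameCycle hf hg hf' hg' (rep v) (h.1.trans h.2.symm)
  have hf1 : ∀ v, ρ.SameCycle (rep v) (f v) ↔ ¬ ρ.SameCycle (rep v) v := by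
    intro v
    constructor
    · intro h2 h3
      have h4 := sameCycle_f hf hg h2
      rw [hf] at h4
      exact hexcl v ⟨h3, h4⟩
    · intro h2
      have h3 := (hrep v).resolve_left h2
      have h4 := sameCycle_f hf hg h3
      rwa [hf] at h4
  refine ⟨fun v => decide (ρ.SameCycle (rep v) v), ?_, ?_⟩
  · intro v
    simp only [hrepf]
    rw [← decide_not, decide_eq_decide]
    exact hf1 v
  · intro v
    simp only [hrepg]
    have h1 : ρ.SameCycle (rep v) (g v) ↔ ¬ ρ.SameCycle (rep v) v := by
      rw [← hf1 v]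
      exact ⟨fun h => h.trans (sameCycle_fg hf hg v).symm,
        fun h => h.trans (sameCycle_fg hf hg v)⟩
    rw [← decide_not, decide_eq_decide]
    exact h1

end color

section path

variable {f g : V → V}

/-- The vertices of the alternating path from `x`. -/
def sq (f g : V → V) (x : V) (n : ℕ) : V := (fun v => g (f v))^[n] x

@[simp] theorem sq_zero (x : V) : sq f g x 0 = x := rfl

theorem sq_succ (x : V) (n : ℕ) : sq f g x (n + 1) = g (f (sq f g x n)) :=
  Function.iterate_succ_apply' _ _ _

/-- The alternating path from `x`, a fixed point of `g`, to the next fixed point of `g`. -/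
structure IsPath (f g : V → V) (x b : V) (l : ℕ) : Prop where
  hx : g x = x
  hb : g b = b
  hlast : f (sq f g x l) = b
  hmin : ∀ n < l, g (f (sq f g x n)) ≠ f (sq f g x n)

theorem exists_isPath [Finite V] (hf : ∀ v, f (f v) = v) (hg : ∀ v, g (g v) = v)
    (hf' : ∀ v, f v ≠ v) {x : V} (hx : g x = x) :
    ∃ b l, IsPath f g x b l := by
  classical
  have hex : ∃ n, g (f (sq f g x n)) = f (sq f g x n) := by
    let ρ := rot hf hg
    have hρ : ∀ n : ℕ, (ρ ^ n) x = sq f g x n := by
      intro n
      rw [sq, ← Equiv.Perm.iterate_eq_pow]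
      rfl
    obtain ⟨N, hN, hN1⟩ : ∃ N : ℕ, 0 < N ∧ ρ ^ N = 1 :=
      ⟨orderOf ρ, orderOf_pos ρ, pow_orderOf_eq_one ρ⟩
    have h1 : ∀ j : ℕ, j < N → sq f g x (N - 1 - j) = f (sq f g x j) := by
      intro j
      induction j with
      | zero =>
        intro _
        have h2 : sq f g x (N - 1 + 1) = x := by
          rw [Nat.sub_add_cancel hN, ← hρ, hN1]
          rfl
        rw [sq_succ] at h2
        have h3 : f (sq f g x (N - 1)) = x := by
          rw [← hg (f (sq f g x (N - 1))), h2, hx]
        simp only [Nat.sub_zero, sq_zero]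
        have h4 := congrArg f h3
        rwa [hf] at h4
      | succ j ih =>
        intro hj
        have h2 := ih (by omega)
        have h3 : N - 1 - j = (N - 1 - (j + 1)) + 1 := by omega
        rw [h3, sq_succ] at h2
        have h4 : f (sq f g x (N - 1 - (j + 1))) = g (f (sq f g x j)) := by
          rw [← h2, hg]
        rw [sq_succ, ← h4, hf]
    rcases Nat.even_or_odd' (N - 1) with ⟨j, hj | hj⟩
    · exfalso
      have h2 := h1 j (by omega)
      rw [show N - 1 - j = j by omega] at h2
      exact hf' _ h2.symm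
    · refine ⟨j, ?_⟩
      have h2 := h1 j (by omega)
      rw [show N - 1 - j = j + 1 by omega, sq_succ] at h2
      exact h2
  refine ⟨f (sq f g x (Nat.find hex)), Nat.find hex, hx, Nat.find_spec hex, rfl, ?_⟩
  intro n hn
  exact Nat.find_min hex hn

/-- The vertex set of the path. -/
def pset (f g : V → V) (x : V) (l : ℕ) : Set V :=
  {v | ∃ n ≤ l, v = sq f g x n ∨ v = f (sq f g x n)}

variable {x b : V} {l : ℕ}

theorem x_mem : x ∈ pset f g x l := ⟨0, Nat.zero_le _, Or.inl rfl⟩

theorem IsPath.b_mem (h : IsPath f g x b l) : b ∈ pset f g x l :=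
  ⟨l, le_rfl, Or.inr h.hlast.symm⟩

theorem g_sq (hg : ∀ v, g (g v) = v) {n : ℕ} :
    g (sq f g x (n + 1)) = f (sq f g x n) := by
  rw [sq_succ, hg]

theorem IsPath.mem_f (hf : ∀ v, f (f v) = v) {v : V} (hv : v ∈ pset f g x l) :
    f v ∈ pset f g x l := by
  obtain ⟨n, hn, h1 | h1⟩ := hv
  · exact ⟨n, hn, Or.inr (by rw [h1])⟩
  · exact ⟨n, hn, Or.inl (by rw [h1, hf])⟩

theorem IsPath.mem_f_iff (hf : ∀ v, f (f v) = v) {v : V} :
    f v ∈ pset f g x l ↔ v ∈ pset f g x l :=
  ⟨fun h => by simpa only [hf] using IsPath.mem_f hf h, IsPath.mem_f hf⟩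

theorem IsPath.mem_g (h : IsPath f g x b l) (hg : ∀ v, g (g v) = v) {v : V}
    (hv : v ∈ pset f g x l) : g v ∈ pset f g x l := by
  obtain ⟨n, hn, h1 | h1⟩ := hv
  · rcases Nat.eq_zero_or_pos n with h0 | h0
    · rw [h1, h0, sq_zero, h.hx]
      exact x_mem
    · obtain ⟨i, rfl⟩ : ∃ i, n = i + 1 := ⟨n - 1, by omega⟩
      exact ⟨i, by omega, Or.inr (by rw [h1, g_sq hg])⟩
  · rcases Nat.lt_or_ge n l with h2 | h2
    · exact ⟨n + 1, h2, Or.inl (by rw [h1, sq_succ])⟩
    · have h3 : n = l := le_antisymm hn h2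
      rw [h1, h3, h.hlast, h.hb]
      exact h.b_mem

theorem IsPath.mem_g_iff (h : IsPath f g x b l) (hg : ∀ v, g (g v) = v) {v : V} :
    g v ∈ pset f g x l ↔ v ∈ pset f g x l :=
  ⟨fun h1 => by simpa only [hg] using h.mem_g hg h1, h.mem_g hg⟩

/-- No inner vertex of the path is a fixed point. -/
theorem IsPath.sq_ne (h : IsPath f g x b l) (hg : ∀ v, g (g v) = v) {n : ℕ} (hn : n < l) :
    g (sq f g x (n + 1)) ≠ sq f g x (n + 1) := by
  intro h1
  rw [g_sq hg, sq_succ] at h1
  exact h.hmin n hn h1.symm

/-- The fixed points of `g` on the path are its ends. -/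
theorem IsPath.fixed (h : IsPath f g x b l) (hg : ∀ v, g (g v) = v) {v : V}
    (hv : v ∈ pset f g x l) (hgv : g v = v) : v = x ∨ v = b := by
  obtain ⟨n, hn, h1 | h1⟩ := hv
  · left
    rcases Nat.eq_zero_or_pos n with h0 | h0
    · rw [h1, h0, sq_zero]
    · exfalso
      obtain ⟨i, rfl⟩ : ∃ i, n = i + 1 := ⟨n - 1, by omega⟩
      rw [h1] at hgv
      exact h.sq_ne hg (by omega) hgv
  · right
    rcases Nat.lt_or_ge n l with h2 | h2
    · exfalso
      rw [h1] at hgv
      exact h.hmin n h2 hgv
    · have h3 : n = l := le_antisymm hn h2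
      rw [h1, h3, h.hlast]

/-- Injectivity of the path. -/
theorem IsPath.inj (h : IsPath f g x b l) (hf : ∀ v, f (f v) = v) (hg : ∀ v, g (g v) = v)
    {i j : ℕ} (hi : i ≤ l) (hj : j ≤ l) (hij : sq f g x i = sq f g x j) : i = j := by
  have key : ∀ i j : ℕ, i < j → j ≤ l → sq f g x i ≠ sq f g x j := by
    intro i
    induction i with
    | zero =>
      intro j h0 hj h1
      obtain ⟨r, rfl⟩ : ∃ r, j = r + 1 := ⟨j - 1, by omega⟩
      apply h.sq_ne hg (n := r) (by omega)
      rw [← h1, sq_zero, h.hx]
    | succ i ih =>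
      intro j h0 hj h1
      obtain ⟨r, rfl⟩ : ∃ r, j = r + 1 := ⟨j - 1, by omega⟩
      apply ih r (by omega) (by omega)
      rw [sq_succ, sq_succ] at h1
      have h2 := congrArg g h1
      rw [hg, hg] at h2
      have h3 := congrArg f h2
      rwa [hf, hf] at h3
  rcases lt_trichotomy i j with h1 | h1 | h1
  · exact absurd hij (key i j h1 hj)
  · exact h1
  · exact absurd hij.symm (key j i h1 hi)

/-- A closed set missing the start of the path misses the path. -/
theorem disj_of_x (hf : ∀ v, f (f v) = v)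
    (hg : ∀ v, g (g v) = v) {Z : Set V} (hZ : ∀ v ∈ Z, f v ∈ Z ∧ g v ∈ Z) (hx : x ∉ Z)
    {v : V} (hv : v ∈ pset f g x l) : v ∉ Z := by
  have key : ∀ n, sq f g x n ∉ Z := by
    intro n
    induction n with
    | zero => exact hx
    | succ n ih =>
      intro h1
      apply ih
      have h2 := (hZ _ h1).2
      rw [g_sq hg] at h2
      have h3 := (hZ _ h2).1
      rwa [hf] at h3
  obtain ⟨n, hn, rfl | rfl⟩ := hv
  · exact key n
  · intro h1
    apply key n
    have h3 := (hZ _ h1).1
    rwa [hf] at h3

/-- A closed set missing the end of the path misses the path. -/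
theorem IsPath.disj_of_b (h : IsPath f g x b l) (hf : ∀ v, f (f v) = v)
    {Z : Set V} (hZ : ∀ v ∈ Z, f v ∈ Z ∧ g v ∈ Z) (hb : b ∉ Z)
    {v : V} (hv : v ∈ pset f g x l) : v ∉ Z := by
  have key : ∀ n ≤ l, sq f g x n ∈ Z → b ∈ Z := by
    intro n hn
    induction hr : l - n generalizing n with
    | zero =>
      intro h1
      rw [← h.hlast, show l = n by omega]
      exact (hZ _ h1).1
    | succ r ih =>
      intro h1
      apply ih (n + 1) (by omega) (by omega)
      rw [sq_succ]
      exact (hZ _ (hZ _ h1).1).2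
  obtain ⟨n, hn, rfl | rfl⟩ := hv
  · exact fun h1 => hb (key n hn h1)
  · intro h1
    have h3 := (hZ _ h1).1
    rw [hf] at h3
    exact hb (key n hn h3)

variable {T : V → Bool}

theorem IsPath.color (h : IsPath f g x b l) (hTf : ∀ v, T (f v) = !T v)
    (hTg : ∀ v, g v ≠ v → T (g v) = !T v) (hx : T x = true) :
    ∀ n ≤ l, T (sq f g x n) = true := by
  intro n
  induction n with
  | zero => exact fun _ => hx
  | succ n ih =>
    intro hn
    rw [sq_succ, hTg _ (h.hmin n (by omega)), hTf, ih (by omega)]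
    rfl

theorem IsPath.color_b (h : IsPath f g x b l) (hTf : ∀ v, T (f v) = !T v)
    (hTg : ∀ v, g v ≠ v → T (g v) = !T v) (hx : T x = true) : T b = false := by
  rw [← h.hlast, hTf, h.color hTf hTg hx l le_rfl]
  rfl

end path

end Pool.Agent.Helper19.TT
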