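import Pool.Agent.Helper19.TT.Sign

/-!
The main theorem on two odd cycles.  (Problem MP_d067c8_co.)
-/

namespace Pool.Agent.Helper19.TT

variable {m k : ℕ} {W : Type*}
variable {μ : Vt m k W → Vt m k W} {s : W → W}
variable {u : ZMod (2 * m + 1)} {w : ZMod (2 * k + 1)}

theorem tr_tr (h : Ctx μ s) {T T0 : Vt m k W → Bool} (hT : ∀ v, T (μ v) = !T v)
    (v : Vt m k W) : tr μ T (tr μ T0 v) = tr μ T v := by
  rcases tr_cases (μ := μ) T0 v with h1 | h1
  · rw [h1]
  · rw [h1, tr_mu h hT]

theorem EE_B [Fintype W] [DecidableEq W] (h : Ctx μ s) {T0 T : Vt m k W → Bool}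
    {u0 : ZMod (2 * m + 1)} (hT0 : Valid μ s u0 w T0) (hT : Valid μ s u w T)
    (hM : T (pM m k W u) = true) {l : ℕ}
    (hp : IsPath μ (gp s u w) (pA u) (pA (u + 1)) l) :
    ∃ κ : Equiv.Perm (It T0), Equiv.Perm.sign κ = (-1) ^ l ∧
      (∀ v, EE μ s w T0 (u + 1) (flipOn (pset μ (gp s u w) (pA u) l) T) v =
        shf m k W (Equiv.swap (Sum.inl 0) (Sum.inl 1) (EE μ s w T0 u T (κ v)))) ∧
      eps T0 (flipOn (pset μ (gp s u w) (pA u) l) T) = (-1) ^ (l + 1) * eps T0 T := by
  have hg := gp_gp h (u := u) (w := w)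
  set U := pset μ (gp s u w) (pA u) l with hU
  set S := sq μ (gp s u w) (pA u) with hS
  have hcol : ∀ n ≤ l, T (S n) = true := hp.color hT.hμ (gp_alt hT) hT.hA
  have hSU : ∀ n ≤ l, S n ∈ U := fun n hn => ⟨n, hn, Or.inl rfl⟩
  have hμU : ∀ {v}, v ∈ U → μ v ∈ U := fun hv => IsPath.mem_f h.μμ hv
  have hMU : pM m k W u ∉ U := by
    intro h2
    rcases hp.fixed hg h2 gp_M with h3 | h3
    · exact M_ne_A h.hm h3
    · exact one_ne_M h.hm h3.symm
  have hinj : ∀ n ≤ l, ∀ r ≤ l, tr μ T0 (S n) = tr μ T0 (S r) → n = r := by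
    intro n hn r hr he
    exact hp.inj h.μμ hg hn hr (tr_inj h hT.hμ (hcol n hn) (hcol r hr) he)
  let ι : Fin (l + 1) ↪ It T0 :=
    ⟨fun n => ⟨tr μ T0 (S n), tr_true hT0.hμ _⟩, by
      intro n r he
      have h1 := hinj n (by omega) r (by omega) (congrArg Subtype.val he)
      exact Fin.ext h1⟩
  have hι : ∀ n : Fin (l + 1), (ι n).1 = tr μ T0 (S n) := fun n => rfl
  have hrange : ∀ v : It T0, v ∈ Set.range ι ↔ v.1 ∈ U := by
    intro v
    constructor
    · rintro ⟨n, rfl⟩
      rw [hι]
      rcases tr_cases (μ := μ) T0 (S n) with h1 | h1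
      · rw [h1]
        exact hSU n (by omega)
      · rw [h1]
        exact hμU (hSU n (by omega))
    · rintro ⟨n, hn, h1 | h1⟩
      · refine ⟨⟨n, by omega⟩, Subtype.ext ?_⟩
        rw [hι]
        show tr μ T0 (S n) = v.1
        rw [hS, ← h1]
        exact tr_of_true v.2
      · refine ⟨⟨n, by omega⟩, Subtype.ext ?_⟩
        rw [hι]
        show tr μ T0 (S n) = v.1
        rw [← tr_mu h hT0.hμ, hS, ← h1]
        exact tr_of_true v.2
  -- the labels zero and one
  have hfix : ∀ x, T x = true → x ≠ pA u → x ≠ pM m k W u →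
      Equiv.swap (Sum.inl 0) (Sum.inl 1) (bl s w T0 u x) = bl s w T0 u x := by
    intro x hx hx1 hx2
    apply Equiv.swap_apply_of_ne_of_ne
    · intro h1
      apply hx1
      apply bl_inj (T0 := T0) h hT hx hT.hA
      rw [h1, bl_A]
    · intro h1
      apply hx2
      apply bl_inj (T0 := T0) h hT hx hM
      rw [h1, bl_M h.hm]
  refine ⟨(finRotate (l + 1)).viaFintypeEmbedding ι, ?_, ?_, ?_⟩
  · rw [Equiv.Perm.viaFintypeEmbedding_sign, sign_finRotate, Nat.add_sub_cancel]
  · intro v
    by_cases hv : v ∈ Set.range ι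
    · obtain ⟨n, rfl⟩ := hv
      rw [Equiv.Perm.viaFintypeEmbedding_apply_image]
      have hleft : EE μ s w T0 (u + 1) (flipOn U T) (ι n) = bl s w T0 (u + 1) (μ (S n)) := by
        have h1 : flipOn U T (S n) = false := by
          rw [flipOn_mem (hSU n (by omega)), hcol n (by omega)]
          rfl
        have h2 : ∀ x, flipOn U T (μ x) = !flipOn U T x := by
          intro x
          by_cases hx : x ∈ U
          · rw [flipOn_mem hx, flipOn_mem (hμU hx), hT.hμ]
          · rw [flipOn_notMem hx, flipOn_notMem, hT.hμ]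
            intro h3
            apply hx
            have h4 := hμU h3
            rwa [h.μμ] at h4
        unfold EE
        rw [hι, tr_tr h h2]
        unfold tr
        rw [if_neg (by rw [h1]; exact Bool.false_ne_true)]
      have hright : ∀ r : Fin (l + 1), EE μ s w T0 u T (ι r) = bl s w T0 u (S r) := by
        intro r
        unfold EE
        rw [hι, tr_tr h hT.hμ, tr_of_true (hcol r (by omega))]
      rw [hleft, hright]
      by_cases hn : n = Fin.last l
      · subst hn
        rw [finRotate_last]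
        have h1 : μ (S (Fin.last l)) = pA (u + 1) := hp.hlast
        have h2 : S ((0 : Fin (l + 1)) : ℕ) = pA u := rfl
        rw [h1, h2, bl_A, bl_A, Equiv.swap_apply_left, shf_inl, sub_self]
      · have hn' : (n : ℕ) < l := by
          rcases Nat.lt_or_ge (n : ℕ) l with h1 | h1
          · exact h1
          · exact absurd (Fin.ext (by simp only [Fin.val_last]; omega)) hn
        have h1 : ((finRotate (l + 1) n : Fin (l + 1)) : ℕ) = n + 1 := by
          have h2 := finRotate_of_lt hn'
          have h3 : (⟨(n : ℕ), by omega⟩ : Fin (l + 1)) = n := rfl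
          rw [h3] at h2
          rw [h2]
        rw [h1]
        have hne1 : μ (S n) ≠ pM m k W u := by
          intro h2
          exact hMU (h2 ▸ hμU (hSU n (by omega)))
        have hne2 : μ (S n) ≠ pA (u + 1) := by
          intro h2
          apply hp.hmin n hn'
          show gp s u w (μ (S n)) = μ (S n)
          rw [h2, gp_one]
        have hstep : S (n + 1) = nu s u w (μ (S n)) := by
          rw [hS, sq_succ, ← hS, gp_of_ne hne2 hne1]
        rw [hfix (S (n + 1)) (hcol _ (by omega)), hstep, bl_nu h hT0, bl_shift hne1]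
        · intro h2
          have h3 := hp.inj h.μμ hg (i := n + 1) (j := 0) (by omega) (Nat.zero_le _) h2
          omega
        · intro h2
          exact hMU (h2 ▸ hSU (n + 1) (by omega))
    · rw [Equiv.Perm.viaFintypeEmbedding_apply_notMem_range _ _ hv]
      rw [hrange] at hv
      have hv2 : μ v.1 ∉ U := by
        intro h1
        apply hv
        have h2 := hμU h1
        rwa [h.μμ] at h2
      have htr : tr μ (flipOn U T) v.1 = tr μ T v.1 := by
        unfold tr
        rw [flipOn_notMem hv]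
      have htrU : tr μ T v.1 ∉ U := by
        rcases tr_cases (μ := μ) T v.1 with h1 | h1
        · rwa [h1]
        · rwa [h1]
      unfold EE
      rw [htr]
      by_cases hx : tr μ T v.1 = pM m k W u
      · rw [hx, bl_back h.hm, bl_M h.hm, Equiv.swap_apply_right]
      · rw [hfix _ (tr_true hT.hμ _) _ hx, bl_shift hx]
        intro h1
        exact htrU (h1 ▸ x_mem)
  · unfold eps
    have h1 : ∀ v : It T0, (if flipOn U T v.1 = true then (1 : ℤˣ) else -1) =
        (if v ∈ Finset.univ.map ι then -1 else 1) * (if T v.1 = true then 1 else -1) := by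
      intro v
      have h2 : v ∈ Finset.univ.map ι ↔ v.1 ∈ U := by
        rw [← hrange]
        simp
      by_cases hv : v.1 ∈ U
      · rw [if_pos (h2.mpr hv), flipOn_mem hv]
        rcases T v.1 with _ | _ <;> simp
      · rw [if_neg (fun h3 => hv (h2.mp h3)), flipOn_notMem hv, one_mul]
    rw [Finset.prod_congr rfl (fun v _ => h1 v), Finset.prod_mul_distrib,
      Finset.prod_ite_mem, Finset.univ_inter, Finset.prod_const, Finset.card_map,
      Finset.card_univ, Fintype.card_fin]

/-- Closed sets without vertices on the first cycle do not see its unmatched vertex. -/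
theorem Cl.of_noA {Z : Set (Vt m k W)} (hZ : Cl μ s u w Z) (hA : ∀ i, pA i ∉ Z)
    (u' : ZMod (2 * m + 1)) : Cl μ s u' w Z := by
  intro v hv
  refine ⟨(hZ v hv).1, ?_⟩
  rcases v with i | z
  · exact absurd hv (hA i)
  · have h1 := (hZ _ hv).2
    rw [nu_inr] at h1 ⊢
    exact h1

/-- **Main combinatorial theorem.**  If `m` is odd, some state has a valid colouring in which
both unmatched vertices have a further neighbour of the other colour on their cycles. -/
theorem not_bad [Fintype W] [DecidableEq W] (h : Ctx μ s) (hm : Odd m) : ¬ Bad μ s := by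
  intro hbad
  obtain ⟨T0, hI0⟩ := exists_inv h (0 : ZMod (2 * m + 1)) (0 : ZMod (2 * k + 1))
  have hT0 := hI0.valid
  have key : ∀ n : ℕ, ∃ (T : Vt m k W → Bool) (L : Equiv.Perm (Jt m k W))
      (K : Equiv.Perm (It T0)), Inv μ s (n : ZMod (2 * m + 1)) 0 T ∧
      (∀ Z, Cl μ s (n : ZMod (2 * m + 1)) 0 Z → (∀ i, pA i ∉ Z) → ∀ v ∈ Z, T v = T0 v) ∧
      (∀ v, EE μ s 0 T0 (n : ZMod (2 * m + 1)) T v = L (EE μ s 0 T0 0 T0 (K v))) ∧
      (∀ z, L (Sum.inr z) = Sum.inr z) ∧
      Equiv.Perm.sign L * Equiv.Perm.sign K * eps T0 T = (-1) ^ (m * n) := by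
    intro n
    induction n with
    | zero =>
      refine ⟨T0, 1, 1, ?_, fun _ _ _ _ _ => rfl, ?_, fun _ => rfl, ?_⟩
      · rw [Nat.cast_zero]
        exact hI0
      · intro v
        rw [Nat.cast_zero]
        rfl
      · rw [eps_self, Equiv.Perm.sign_one, Equiv.Perm.sign_one]
        simp
    | succ n ih =>
      obtain ⟨T, L, K, hI, hst, hE, hL, hs⟩ := ih
      have hT := hI.valid
      rw [Nat.cast_add, Nat.cast_one]
      rcases hM : T (pM m k W (n : ZMod (2 * m + 1))) with _ | _
      · refine ⟨T, shf m k W * L, K, step_A h hbad hI hM, ?_, ?_, ?_, ?_⟩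
        · intro Z hZ hA v hv
          exact hst Z (hZ.of_noA hA _) hA v hv
        · intro v
          rw [EE_A hT hM, hE, Equiv.Perm.mul_apply]
        · intro z
          rw [Equiv.Perm.mul_apply, hL, shf_inr]
        · rw [Equiv.Perm.sign_mul, sign_shf, mul_assoc, mul_assoc, ← mul_assoc _ _ (eps T0 T),
            hs, ← pow_add]
          congr 1
          ring
      · obtain ⟨l, hp⟩ := path_end h hbad hI hM
        obtain ⟨κ, hκ1, hκ2, hκ3⟩ := EE_B h hT0 hT hM hp
        refine ⟨flipOn (pset μ (gp s (n : ZMod (2 * m + 1)) 0)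
            (pA (n : ZMod (2 * m + 1))) l) T,
          shf m k W * (Equiv.swap (Sum.inl 0) (Sum.inl 1) * L), K * κ,
          step_B h hI hM hp, ?_, ?_, ?_, ?_⟩
        · intro Z hZ hA v hv
          have hZ' := hZ.of_noA hA (n : ZMod (2 * m + 1))
          have hv' : v ∉ pset μ (gp s (n : ZMod (2 * m + 1)) 0)
              (pA (n : ZMod (2 * m + 1))) l := fun h1 =>
            disj_of_x h.μμ (gp_gp h) (cl_gp' hZ') (hA _) h1 hv
          rw [flipOn_notMem hv']
          exact hst Z hZ' hA v hv
        · intro v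
          rw [hκ2, hE, Equiv.Perm.mul_apply, Equiv.Perm.mul_apply, Equiv.Perm.mul_apply]
        · intro z
          rw [Equiv.Perm.mul_apply, Equiv.Perm.mul_apply, hL,
            Equiv.swap_apply_of_ne_of_ne Sum.inr_ne_inl Sum.inr_ne_inl, shf_inr]
        · have h01 : (Sum.inl 0 : Jt m k W) ≠ Sum.inl 1 := by
            intro h1
            have h2 : ((0 : ℕ) : ZMod (m + 1)) = ((1 : ℕ) : ZMod (m + 1)) := by
              rw [Nat.cast_zero, Nat.cast_one]
              exact Sum.inl_injective h1
            have h3 := congrArg ZMod.val h2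
            rw [ZMod.val_natCast, ZMod.val_natCast, Nat.zero_mod,
              Nat.mod_eq_of_lt (by have := h.hm; omega)] at h3
            omega
          rw [Equiv.Perm.sign_mul, Equiv.Perm.sign_mul, Equiv.Perm.sign_mul, sign_shf,
            Equiv.Perm.sign_swap h01, hκ1, hκ3]
          have h4 : (-1 : ℤˣ) ^ m * (-1 * Equiv.Perm.sign L) * (Equiv.Perm.sign K * (-1) ^ l) *
              ((-1) ^ (l + 1) * eps T0 T) =
              (-1) ^ m * (Equiv.Perm.sign L * Equiv.Perm.sign K * eps T0 T) *
              (-1 * ((-1) ^ l * (-1) ^ (l + 1))) := by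
            ac_rfl
          rw [h4, hs, ← pow_add, ← pow_add, ← pow_succ', Even.neg_one_pow (n := _ + 1), mul_one]
          · congr 1
            ring
          · exact ⟨l + 1, by ring⟩
  obtain ⟨T, L, K, hI, hst, hE, hL, hs⟩ := key (2 * m + 1)
  rw [two_m] at hI hst hE
  have hT := hI.valid
  have hD : Cl μ s 0 0 {v | T v ≠ T0 v} := by
    intro v hv
    have hv' : T v ≠ T0 v := hv
    have h1 : v ≠ pA 0 := by
      rintro rfl
      rw [hT.hA, hT0.hA] at hv'
      exact hv' rfl
    have h2 : v ≠ pB 0 := by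
      rintro rfl
      rw [hT.hB, hT0.hB] at hv'
      exact hv' rfl
    constructor
    · show T (μ v) ≠ T0 (μ v)
      rw [hT.hμ, hT0.hμ]
      intro h3
      exact hv' (Bool.not_inj h3)
    · show T (nu s 0 0 v) ≠ T0 (nu s 0 0 v)
      rw [hT.hν v h1 h2, hT0.hν v h1 h2]
      intro h3
      exact hv' (Bool.not_inj h3)
  have hDA : pA 0 ∉ {v | T v ≠ T0 v} := by
    intro h1
    apply h1
    rw [hT.hA, hT0.hA]
  have hDB := h.B_notMem hD hDA
  have hnoB : ∀ j, pB j ∉ {v | T v ≠ T0 v} := by
    intro j hj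
    obtain ⟨n, hn1, hn2⟩ := exists_first hDB hj
    have h1 := hI.first _ hD hDA n hn1 hn2
    have h2 := hI0.first _ hD hDA n hn1 hn2
    exact hn2 (h1.trans h2.symm)
  have hnoA := no_pure h hbad hD hDA hnoB
  have hTT : T = T0 := by
    funext v
    by_contra h1
    exact h1 (hst _ hD hnoA v h1)
  subst hTT
  rw [eps_self, mul_one] at hs
  have hsgn := sign_eq h hT L K hL hE
  rw [hsgn, Int.units_mul_self] at hs
  have hodd : Odd (m * (2 * m + 1)) := hm.mul ⟨m, rfl⟩
  rw [hodd.neg_one_pow] at hs
  exact absurd hs (by decide)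

/-- The main theorem in positive form. -/
theorem exists_good [Fintype W] [DecidableEq W] (h : Ctx μ s) (hm : Odd m) :
    ∃ u w T, Valid μ s u w T ∧ T (pB (w + ((k : ZMod (2 * k + 1)) + 1))) = true ∧
      (T (pA (u + ((m : ZMod (2 * m + 1)) + 1))) = false ∨
        T (pA (u + (m : ZMod (2 * m + 1)))) = false) := by
  by_contra hc
  apply not_bad h hm
  intro u w T hT hB
  push Not at hc
  have h1 := hc u w T hT hB
  constructor
  · simpa using h1.1
  · simpa using h1.2

end Pool.Agent.Helper19.TT
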