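import Pool.Agent.Helper19.TT.Torus

/-!
Two odd cycles and even cycles, joined by a perfect matching: states, colourings and closed
sets.  (Problem MP_d067c8_co.)
-/

namespace Pool.Agent.Helper19.TT

variable {m k : ℕ} {W : Type*}

/-- The vertices: a cycle of length `2m+1`, a cycle of length `2k+1`, and the rest. -/
abbrev Vt (m k : ℕ) (W : Type*) := ZMod (2 * m + 1) ⊕ (ZMod (2 * k + 1) ⊕ W)

/-- Vertices of the first odd cycle. -/
abbrev pA (i : ZMod (2 * m + 1)) : Vt m k W := Sum.inl i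

/-- Vertices of the second odd cycle. -/
abbrev pB (j : ZMod (2 * k + 1)) : Vt m k W := Sum.inr (Sum.inl j)

/-- The other vertices. -/
abbrev pC (z : W) : Vt m k W := Sum.inr (Sum.inr z)

/-- The partner in the chosen matching of the 2-factor. -/
def nu (s : W → W) (u : ZMod (2 * m + 1)) (w : ZMod (2 * k + 1)) : Vt m k W → Vt m k W
  | Sum.inl i => Sum.inl (prt m u i)
  | Sum.inr (Sum.inl j) => Sum.inr (Sum.inl (prt k w j))
  | Sum.inr (Sum.inr z) => Sum.inr (Sum.inr (s z))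

/-- Valid colourings of the state `(u, w)`. -/
structure Valid (μ : Vt m k W → Vt m k W) (s : W → W) (u : ZMod (2 * m + 1))
    (w : ZMod (2 * k + 1)) (T : Vt m k W → Bool) : Prop where
  hA : T (pA u) = true
  hB : T (pB w) = false
  hμ : ∀ v, T (μ v) = !T v
  hν : ∀ v, v ≠ pA u → v ≠ pB w → T (nu s u w v) = !T v

/-- Sets closed under both partner maps. -/
def Cl (μ : Vt m k W → Vt m k W) (s : W → W) (u : ZMod (2 * m + 1))
    (w : ZMod (2 * k + 1)) (Z : Set (Vt m k W)) : Prop :=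
  ∀ v ∈ Z, μ v ∈ Z ∧ nu s u w v ∈ Z

/-- The standing hypotheses. -/
structure Ctx (μ : Vt m k W → Vt m k W) (s : W → W) : Prop where
  hm : 1 ≤ m
  hk : 1 ≤ k
  μμ : ∀ v, μ (μ v) = v
  μne : ∀ v, μ v ≠ v
  ss : ∀ z, s (s z) = z
  sne : ∀ z, s z ≠ z

variable {μ : Vt m k W → Vt m k W} {s : W → W}
variable {u : ZMod (2 * m + 1)} {w : ZMod (2 * k + 1)}

theorem nu_A (i : ZMod (2 * m + 1)) : nu s u w (pA i) = pA (prt m u i) := rfl

theorem nu_B (j : ZMod (2 * k + 1)) : nu s u w (pB j) = pB (prt k w j) := rfl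

theorem nu_C (z : W) : nu s u w (pC z) = pC (s z) := rfl

theorem nu_Au : nu s u w (pA u) = pA u := by rw [nu_A, prt_self]

theorem nu_Bw : nu s u w (pB w) = pB w := by rw [nu_B, prt_self]

theorem pA_inj {i j : ZMod (2 * m + 1)} : (pA i : Vt m k W) = pA j ↔ i = j :=
  Sum.inl_injective.eq_iff

theorem pB_inj {i j : ZMod (2 * k + 1)} : (pB i : Vt m k W) = pB j ↔ i = j := by
  constructor
  · intro h
    exact Sum.inl_injective (Sum.inr_injective h)
  · intro h
    rw [h]

theorem pA_ne_pB {i : ZMod (2 * m + 1)} {j : ZMod (2 * k + 1)} : (pA i : Vt m k W) ≠ pB j := by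
  intro h
  cases h

namespace Ctx

variable (h : Ctx μ s)

include h

theorem nu_nu (v : Vt m k W) : nu s u w (nu s u w v) = v := by
  rcases v with i | j | z
  · show Sum.inl _ = _
    rw [prt_prt]
  · show Sum.inr (Sum.inl _) = _
    rw [prt_prt]
  · show Sum.inr (Sum.inr _) = _
    rw [h.ss]

theorem nu_ne {v : Vt m k W} (h1 : v ≠ pA u) (h2 : v ≠ pB w) : nu s u w v ≠ v := by
  rcases v with i | j | z
  · intro h3
    exact prt_ne (fun h4 => h1 (by rw [h4])) (Sum.inl_injective h3)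
  · intro h3
    exact prt_ne (fun h4 => h2 (by rw [h4])) (Sum.inl_injective (Sum.inr_injective h3))
  · intro h3
    exact h.sne z (Sum.inr_injective (Sum.inr_injective h3))

/-- Every state has a valid colouring. -/
theorem exists_valid (u : ZMod (2 * m + 1)) (w : ZMod (2 * k + 1)) :
    ∃ T, Valid μ s u w T := by
  classical
  let g : Vt m k W → Vt m k W := fun v =>
    if v = pA u then pB w else if v = pB w then pA u else nu s u w v
  have hgA : g (pA u) = pB w := by simp [g]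
  have hgB : g (pB w) = pA u := by simp [g]
  have hgo : ∀ v, v ≠ pA u → v ≠ pB w → g v = nu s u w v := by
    intro v h1 h2
    simp [g, h1, h2]
  have hnA : ∀ v, v ≠ pA u → v ≠ pB w → nu s u w v ≠ pA u := by
    intro v h1 h2 h3
    apply h1
    rw [← h.nu_nu (u := u) (w := w) v, h3, nu_Au]
  have hnB : ∀ v, v ≠ pA u → v ≠ pB w → nu s u w v ≠ pB w := by
    intro v h1 h2 h3
    apply h2
    rw [← h.nu_nu (u := u) (w := w) v, h3, nu_Bw]
  have hg : ∀ v, g (g v) = v := by
    intro v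
    by_cases h1 : v = pA u
    · rw [h1, hgA, hgB]
    by_cases h2 : v = pB w
    · rw [h2, hgB, hgA]
    rw [hgo v h1 h2, hgo _ (hnA v h1 h2) (hnB v h1 h2), h.nu_nu]
  have hg' : ∀ v, g v ≠ v := by
    intro v
    by_cases h1 : v = pA u
    · rw [h1, hgA]
      exact fun h3 => pA_ne_pB h3.symm
    by_cases h2 : v = pB w
    · rw [h2, hgB]
      exact pA_ne_pB
    rw [hgo v h1 h2]
    exact h.nu_ne h1 h2
  obtain ⟨T, hT1, hT2⟩ := exists_alternating h.μμ hg h.μne hg'
  have hAB : T (pB w) = !T (pA u) := by rw [← hgA, hT2]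
  rcases hb : T (pA u) with _ | _
  · refine ⟨fun v => !T v, ?_, ?_, ?_, ?_⟩
    · simp [hb]
    · simp [hAB, hb]
    · intro v
      simp [hT1]
    · intro v h1 h2
      rw [← hgo v h1 h2]
      simp [hT2]
  · refine ⟨T, hb, ?_, hT1, ?_⟩
    · simp [hAB, hb]
    · intro v h1 h2
      rw [← hgo v h1 h2, hT2]

omit h in
theorem alt_of_valid {T : Vt m k W → Bool} (hT : Valid μ s u w T) (v : Vt m k W)
    (hv : nu s u w v ≠ v) : T (nu s u w v) = !T v := by
  apply hT.hν
  · rintro rfl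
    exact hv nu_Au
  · rintro rfl
    exact hv nu_Bw

/-- A closed set contains both unmatched vertices or none. -/
theorem B_notMem [Finite W] {Z : Set (Vt m k W)} (hZ : Cl μ s u w Z) (hA : pA u ∉ Z) :
    pB w ∉ Z := by
  obtain ⟨T, hT⟩ := h.exists_valid u w
  obtain ⟨b, l, hp⟩ := exists_isPath h.μμ (h.nu_nu (u := u) (w := w)) h.μne
    (nu_Au (m := m) (k := k) (s := s) (u := u) (w := w))
  have hb := hp.color_b hT.hμ (alt_of_valid hT) hT.hA
  have hb2 : b = pB w := by
    by_contra h1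
    by_cases h2 : b = pA u
    · rw [h2, hT.hA] at hb
      cases hb
    · exact h.nu_ne h2 h1 hp.hb
  rw [← hb2]
  exact disj_of_x h.μμ (h.nu_nu (u := u) (w := w)) hZ hA hp.b_mem

omit h in
/-- Mixing colourings along a closed set. -/
theorem mix {Z : Set (Vt m k W)} [DecidablePred (· ∈ Z)] (h : Ctx μ s) (hZ : Cl μ s u w Z)
    (hA : pA u ∉ Z) (hB : pB w ∉ Z) {T T' : Vt m k W → Bool} (hT' : Valid μ s u w T')
    (hT1 : ∀ v ∈ Z, T (μ v) = !T v) (hT2 : ∀ v ∈ Z, T (nu s u w v) = !T v) :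
    Valid μ s u w (fun v => if v ∈ Z then T v else T' v) := by
  have h1 : ∀ v, μ v ∈ Z ↔ v ∈ Z := fun v =>
    ⟨fun h2 => by simpa only [h.μμ] using (hZ _ h2).1, fun h2 => (hZ _ h2).1⟩
  have h2 : ∀ v, nu s u w v ∈ Z ↔ v ∈ Z := fun v =>
    ⟨fun h2 => by simpa only [h.nu_nu] using (hZ _ h2).2, fun h2 => (hZ _ h2).2⟩
  refine ⟨?_, ?_, ?_, ?_⟩
  · simp only [hA, if_false, hT'.hA]
  · simp only [hB, if_false, hT'.hB]
  · intro v
    by_cases h3 : v ∈ Z
    · simp only [h1, h3, if_true, hT1 v h3]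
    · simp only [h1, h3, if_false, hT'.hμ v]
  · intro v h4 h5
    by_cases h3 : v ∈ Z
    · simp only [h2, h3, if_true, hT2 v h3]
    · simp only [h2, h3, if_false, hT'.hν v h4 h5]

/-- The partners of the second cycle do not change on a closed set. -/
theorem nu_up {Z : Set (Vt m k W)} (hZ : Cl μ s u w Z) (h0 : pB w ∉ Z) (h1 : pB (w + 1) ∉ Z)
    {v : Vt m k W} (hv : v ∈ Z) : nu s u (w + 1) v = nu s u w v := by
  rcases v with i | j | z
  · rfl
  · show (pB (prt k (w + 1) j) : Vt m k W) = pB (prt k w j)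
    rw [prt_shift]
    · rintro rfl
      exact h0 hv
    · rintro rfl
      exact h1 hv
    · rintro rfl
      have h2 := (hZ _ hv).2
      apply h1
      have h3 : nu s u w (Sum.inr (Sum.inl (w + ((k : ZMod (2 * k + 1)) + 1))) : Vt m k W)
          = pB (w + 1) := by
        rw [nu_B, prt_m1 h.hk]
      rwa [h3] at h2
  · rfl

theorem cl_up {Z : Set (Vt m k W)} (hZ : Cl μ s u w Z) (h0 : pB w ∉ Z) (h1 : pB (w + 1) ∉ Z) :
    Cl μ s u (w + 1) Z := by
  intro v hv
  rw [h.nu_up hZ h0 h1 hv]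
  exact hZ v hv

theorem nu_right {Z : Set (Vt m k W)} (hZ : Cl μ s u w Z) (h0 : pA u ∉ Z)
    (h1 : pA (u + 1) ∉ Z) {v : Vt m k W} (hv : v ∈ Z) : nu s (u + 1) w v = nu s u w v := by
  rcases v with i | j | z
  · show (pA (prt m (u + 1) i) : Vt m k W) = pA (prt m u i)
    rw [prt_shift]
    · rintro rfl
      exact h0 hv
    · rintro rfl
      exact h1 hv
    · rintro rfl
      have h2 := (hZ _ hv).2
      apply h1
      have h3 : nu s u w (Sum.inl (u + ((m : ZMod (2 * m + 1)) + 1)) : Vt m k W)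
          = pA (u + 1) := by
        rw [nu_A, prt_m1 h.hm]
      rwa [h3] at h2
  · rfl
  · rfl

theorem cl_right {Z : Set (Vt m k W)} (hZ : Cl μ s u w Z) (h0 : pA u ∉ Z)
    (h1 : pA (u + 1) ∉ Z) : Cl μ s (u + 1) w Z := by
  intro v hv
  rw [h.nu_right hZ h0 h1 hv]
  exact hZ v hv

theorem nu_left {Z : Set (Vt m k W)} (hZ : Cl μ s (u + 1) w Z) (h0 : pA u ∉ Z)
    (h1 : pA (u + 1) ∉ Z) {v : Vt m k W} (hv : v ∈ Z) : nu s (u + 1) w v = nu s u w v := by
  rcases v with i | j | z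
  · show (pA (prt m (u + 1) i) : Vt m k W) = pA (prt m u i)
    rw [prt_shift]
    · rintro rfl
      exact h0 hv
    · rintro rfl
      exact h1 hv
    · rintro rfl
      have h2 := (hZ _ hv).2
      apply h0
      have h3 : nu s (u + 1) w (Sum.inl (u + ((m : ZMod (2 * m + 1)) + 1)) : Vt m k W)
          = pA u := by
        rw [nu_A, prt_back' h.hm]
      rwa [h3] at h2
  · rfl
  · rfl

theorem cl_left {Z : Set (Vt m k W)} (hZ : Cl μ s (u + 1) w Z) (h0 : pA u ∉ Z)
    (h1 : pA (u + 1) ∉ Z) : Cl μ s u w Z := by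
  intro v hv
  rw [← h.nu_left hZ h0 h1 hv]
  exact hZ v hv

end Ctx

end Pool.Agent.Helper19.TT
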