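import Pool.Agent.Helper19.TT.Core

/-!
Parametrisation of the components of a 2-regular graph.  (Problem MP_d067c8_co.)
-/

namespace Pool.Agent.Helper19.TT

open SimpleGraph

theorem exists_param {V : Type*} [Finite V] (H : SimpleGraph V) (h2 : H.IsCycles)
    (c : H.ConnectedComponent) {v : V} (hv : v ∈ c.supp) (hn : (H.neighborSet v).Nonempty) :
    ∃ n : ℕ, 3 ≤ n ∧ ∃ e : ZMod n → V, Function.Injective e ∧ Set.range e = c.supp ∧
      ∀ i, H.Adj (e i) (e (i + 1)) := by
  obtain ⟨p, hp, hpc⟩ := h2.exists_cycle_toSubgraph_verts_eq_connectedComponentSupp hv hn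
  have h3 := hp.three_le_length
  have : NeZero p.length := ⟨by omega⟩
  refine ⟨p.length, h3, fun i => p.getVert i.val, ?_, ?_, ?_⟩
  · intro i j hij
    have hi := ZMod.val_lt i
    have hj := ZMod.val_lt j
    have h4 := hp.getVert_injOn' (show i.val ≤ p.length - 1 by omega)
      (show j.val ≤ p.length - 1 by omega) hij
    exact ZMod.val_injective _ h4
  · rw [← hpc]
    ext w
    rw [Walk.mem_verts_toSubgraph, Walk.mem_support_iff_exists_getVert]
    constructor
    · rintro ⟨i, rfl⟩
      exact ⟨i.val, rfl, (ZMod.val_lt i).le⟩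
    · rintro ⟨r, hr, hrl⟩
      rcases Nat.lt_or_ge r p.length with h4 | h4
      · refine ⟨(r : ZMod p.length), ?_⟩
        show p.getVert ((r : ZMod p.length)).val = w
        rw [ZMod.val_natCast, Nat.mod_eq_of_lt h4, hr]
      · refine ⟨0, ?_⟩
        show p.getVert (0 : ZMod p.length).val = w
        rw [ZMod.val_zero, Walk.getVert_zero, ← hr, show r = p.length by omega,
          Walk.getVert_length]
  · intro i
    have hi := ZMod.val_lt i
    have h4 : p.getVert (i + 1).val = p.getVert (i.val + 1) := by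
      have h5 : i + 1 = ((i.val + 1 : ℕ) : ZMod p.length) := by
        push_cast
        rw [ZMod.natCast_zmod_val]
      rw [h5, ZMod.val_natCast]
      rcases Nat.lt_or_ge (i.val + 1) p.length with h6 | h6
      · rw [Nat.mod_eq_of_lt h6]
      · rw [show i.val + 1 = p.length by omega, Nat.mod_self, Walk.getVert_zero,
          Walk.getVert_length]
    show H.Adj (p.getVert i.val) (p.getVert (i + 1).val)
    rw [h4]
    exact p.adj_getVert_succ hi

/-- The number of vertices of the component. -/
theorem ncard_param {V : Type*} {n : ℕ} (hn : 3 ≤ n) {e : ZMod n → V}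
    (he : Function.Injective e) {S : Set V} (hS : Set.range e = S) : S.ncard = n := by
  have : NeZero n := ⟨by omega⟩
  rw [← hS, ← Set.image_univ, Set.ncard_image_of_injective _ he, Set.ncard_univ,
    Nat.card_eq_fintype_card, ZMod.card]

/-- The partner along an even cycle. -/
theorem exists_pairing {V : Type*} [Finite V] (H : SimpleGraph V) (h2 : H.IsCycles)
    (hn : ∀ v, (H.neighborSet v).Nonempty)
    (c : H.ConnectedComponent) (hc : Even c.supp.ncard) :
    ∃ f : V → V, ∀ v ∈ c.supp, f v ∈ c.supp ∧ f (f v) = v ∧ H.Adj v (f v) := by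
  obtain ⟨v, hv⟩ := c.nonempty_supp
  obtain ⟨n, hn3, e, he, hrange, hadj⟩ := exists_param H h2 c hv (hn v)
  have hcard := ncard_param hn3 he hrange
  rw [hcard] at hc
  have : NeZero n := ⟨by omega⟩
  let g : ZMod n → ZMod n := fun i => if i.val % 2 = 0 then i + 1 else i - 1
  have hval1 : ∀ i : ZMod n, i.val % 2 = 0 → (i + 1).val = i.val + 1 := by
    intro i hi
    have h5 : i + 1 = ((i.val + 1 : ℕ) : ZMod n) := by
      push_cast
      rw [ZMod.natCast_zmod_val]
    have h6 := ZMod.val_lt i
    obtain ⟨r, hr⟩ := hc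
    rw [h5, ZMod.val_natCast, Nat.mod_eq_of_lt (by omega)]
  have hval2 : ∀ i : ZMod n, i.val % 2 ≠ 0 → (i - 1).val = i.val - 1 := by
    intro i hi
    have h5 : i - 1 = ((i.val - 1 : ℕ) : ZMod n) := by
      rw [Nat.cast_sub (by omega), ZMod.natCast_zmod_val, Nat.cast_one]
    have h6 := ZMod.val_lt i
    rw [h5, ZMod.val_natCast, Nat.mod_eq_of_lt (by omega)]
  have hgg : ∀ i, g (g i) = i := by
    intro i
    simp only [g]
    by_cases hi : i.val % 2 = 0
    · rw [if_pos hi, hval1 i hi, if_neg (by omega)]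
      ring
    · rw [if_neg hi, hval2 i hi, if_pos (by omega)]
      ring
  have hgadj : ∀ i, H.Adj (e i) (e (g i)) := by
    intro i
    simp only [g]
    split_ifs
    · exact hadj i
    · have h7 := hadj (i - 1)
      rw [sub_add_cancel] at h7
      exact h7.symm
  refine ⟨fun w => e (g (Function.invFun e w)), ?_⟩
  intro w hw
  rw [← hrange] at hw
  obtain ⟨i, rfl⟩ := hw
  have hinv : ∀ j, Function.invFun e (e j) = j := Function.leftInverse_invFun he
  refine ⟨?_, ?_, ?_⟩
  · rw [← hrange]
    exact ⟨_, rfl⟩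
  · simp only [hinv, hgg]
  · simp only [hinv]
    exact hgadj i

/-- Parametrisation of an odd component by steps of length two. -/
theorem exists_param_odd {V : Type*} [Finite V] (H : SimpleGraph V) (h2 : H.IsCycles)
    (hn : ∀ v, (H.neighborSet v).Nonempty)
    (c : H.ConnectedComponent) {m : ℕ} (hm : c.supp.ncard = 2 * m + 1) :
    1 ≤ m ∧ ∃ e : ZMod (2 * m + 1) → V, Function.Injective e ∧ Set.range e = c.supp ∧
      (∀ i, H.Adj (e i) (e (i + m))) ∧ ∀ i, H.Adj (e i) (e (i + (m + 1))) := by
  obtain ⟨v, hv⟩ := c.nonempty_supp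
  obtain ⟨n, hn3, e, he, hrange, hadj⟩ := exists_param H h2 c hv (hn v)
  have hcard := ncard_param hn3 he hrange
  obtain rfl : n = 2 * m + 1 := by omega
  have h0 : (2 * (m : ZMod (2 * m + 1)) + 1) = 0 := by
    have := two_m (m := m)
    push_cast at this
    exact this
  refine ⟨by omega, fun i => e (2 * i), ?_, ?_, ?_, ?_⟩
  · intro i j hij
    have h3 : 2 * i = 2 * j := he hij
    have h4 : ∀ a : ZMod (2 * m + 1), a = ((m : ZMod (2 * m + 1)) + 1) * (2 * a) := by
      intro a
      linear_combination (-a) * h0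
    rw [h4 i, h4 j, h3]
  · rw [← hrange]
    ext w
    constructor
    · rintro ⟨i, rfl⟩
      exact ⟨_, rfl⟩
    · rintro ⟨i, rfl⟩
      refine ⟨((m : ZMod (2 * m + 1)) + 1) * i, ?_⟩
      show e (2 * (((m : ZMod (2 * m + 1)) + 1) * i)) = e i
      congr 1
      linear_combination i * h0
  · intro i
    have h3 := hadj (2 * i - 1)
    rw [sub_add_cancel] at h3
    have h4 : 2 * (i + (m : ZMod (2 * m + 1))) = 2 * i - 1 := by
      linear_combination h0
    show H.Adj (e (2 * i)) (e (2 * (i + (m : ZMod (2 * m + 1)))))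
    rw [h4]
    exact h3.symm
  · intro i
    have h3 := hadj (2 * i)
    have h4 : 2 * (i + ((m : ZMod (2 * m + 1)) + 1)) = 2 * i + 1 := by
      linear_combination h0
    show H.Adj (e (2 * i)) (e (2 * (i + ((m : ZMod (2 * m + 1)) + 1))))
    rw [h4]
    exact h3

end Pool.Agent.Helper19.TT
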