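import Pool.Agent.Helper19.TT.Steps

/-!
Rotating the first unmatched vertex by two steps along its cycle.  (Problem MP_d067c8_co.)
-/

namespace Pool.Agent.Helper19.TT

variable {m k : ℕ} {W : Type*}
variable {μ : Vt m k W → Vt m k W} {s : W → W}
variable {u : ZMod (2 * m + 1)} {w : ZMod (2 * k + 1)}

/-- The vertex `u + m + 1` of the first cycle. -/
abbrev pM (m k : ℕ) (W : Type*) (u : ZMod (2 * m + 1)) : Vt m k W :=
  pA (u + ((m : ZMod (2 * m + 1)) + 1))

/-- The partner map with the two vertices `u + 1`, `u + m + 1` unmatched. -/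
noncomputable def gp (s : W → W) (u : ZMod (2 * m + 1)) (w : ZMod (2 * k + 1)) :
    Vt m k W → Vt m k W :=
  open Classical in
  fun v => if v = pA (u + 1) ∨ v = pM m k W u then v else nu s u w v

theorem gp_one : gp s u w (pA (u + 1)) = pA (u + 1) := by
  classical
  simp [gp]

theorem gp_M : gp s u w (pM m k W u) = pM m k W u := by
  classical
  simp [gp]

theorem gp_of_ne {v : Vt m k W} (h1 : v ≠ pA (u + 1)) (h2 : v ≠ pM m k W u) :
    gp s u w v = nu s u w v := by
  classical
  simp [gp, h1, h2]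

theorem M_ne_A (hm : 1 ≤ m) : pM m k W u ≠ pA u := fun h => m_ne hm u (pA_inj.mp h).symm

theorem one_ne_A (hm : 1 ≤ m) : (pA (u + 1) : Vt m k W) ≠ pA u :=
  fun h => one_ne hm u (pA_inj.mp h)

theorem one_ne_M (hm : 1 ≤ m) : (pA (u + 1) : Vt m k W) ≠ pM m k W u :=
  fun h => one_ne_m hm u (pA_inj.mp h)

theorem nu_one (hm : 1 ≤ m) : nu s u w (pA (u + 1)) = pM m k W u := by
  rw [nu_A, prt_one hm]

theorem nu_M (hm : 1 ≤ m) : nu s u w (pM m k W u) = pA (u + 1) := by
  rw [nu_A, prt_m1 hm]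

theorem nu_back (hm : 1 ≤ m) : nu s (u + 1) w (pA u) = pM m k W u := by
  rw [nu_A, prt_back hm]

theorem nu_back' (hm : 1 ≤ m) : nu s (u + 1) w (pM m k W u) = pA u := by
  rw [nu_A, prt_back' hm]

theorem gp_A (hm : 1 ≤ m) : gp s u w (pA u) = pA u := by
  rw [gp_of_ne (one_ne_A hm).symm (M_ne_A hm).symm, nu_Au]

theorem gp_gp (h : Ctx μ s) (v : Vt m k W) : gp s u w (gp s u w v) = v := by
  by_cases h1 : v = pA (u + 1)
  · rw [h1, gp_one, gp_one]
  by_cases h2 : v = pM m k W u
  · rw [h2, gp_M, gp_M]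
  rw [gp_of_ne h1 h2, gp_of_ne, h.nu_nu]
  · intro h3
    apply h2
    rw [← h.nu_nu (u := u) (w := w) v, h3, nu_one h.hm]
  · intro h3
    apply h1
    rw [← h.nu_nu (u := u) (w := w) v, h3, nu_M h.hm]

theorem gp_fixed (h : Ctx μ s) {v : Vt m k W} (hv : gp s u w v = v) :
    v = pA u ∨ v = pA (u + 1) ∨ v = pM m k W u ∨ v = pB w := by
  by_cases h1 : v = pA (u + 1)
  · exact Or.inr (Or.inl h1)
  by_cases h2 : v = pM m k W u
  · exact Or.inr (Or.inr (Or.inl h2))
  rw [gp_of_ne h1 h2] at hv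
  by_contra hc
  push Not at hc
  exact h.nu_ne hc.1 hc.2.2.2 hv

theorem nu_succ {v : Vt m k W} (h0 : v ≠ pA u) (h1 : v ≠ pA (u + 1)) (h2 : v ≠ pM m k W u) :
    nu s (u + 1) w v = gp s u w v := by
  rw [gp_of_ne h1 h2]
  rcases v with i | j | z
  · show (pA (prt m (u + 1) i) : Vt m k W) = pA (prt m u i)
    rw [prt_shift]
    · rintro rfl
      exact h0 rfl
    · rintro rfl
      exact h1 rfl
    · rintro rfl
      exact h2 rfl
  · rfl
  · rfl

theorem gp_alt {T : Vt m k W → Bool} (hT : Valid μ s u w T) (v : Vt m k W)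
    (hv : gp s u w v ≠ v) : T (gp s u w v) = !T v := by
  by_cases h1 : v = pA (u + 1)
  · rw [h1] at hv
    exact absurd gp_one hv
  by_cases h2 : v = pM m k W u
  · rw [h2] at hv
    exact absurd gp_M hv
  rw [gp_of_ne h1 h2] at hv ⊢
  exact Ctx.alt_of_valid hT v hv

/-- A set closed for the new state and without the new unmatched vertex is closed for `gp`. -/
theorem cl_gp (h : Ctx μ s) {Z : Set (Vt m k W)} (hZ : Cl μ s (u + 1) w Z)
    (hA : pA (u + 1) ∉ Z) : ∀ v ∈ Z, μ v ∈ Z ∧ gp s u w v ∈ Z := by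
  intro v hv
  refine ⟨(hZ v hv).1, ?_⟩
  by_cases h0 : v = pA u
  · rw [h0, gp_A h.hm, ← h0]
    exact hv
  by_cases h1 : v = pA (u + 1)
  · rw [h1] at hv
    exact absurd hv hA
  by_cases h2 : v = pM m k W u
  · rw [h2, gp_M, ← h2]
    exact hv
  rw [← nu_succ h0 h1 h2]
  exact (hZ v hv).2

/-- A set closed for the old state and without the old unmatched vertex is closed for `gp`. -/
theorem cl_gp' {Z : Set (Vt m k W)} (hZ : Cl μ s u w Z) :
    ∀ v ∈ Z, μ v ∈ Z ∧ gp s u w v ∈ Z := by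
  intro v hv
  refine ⟨(hZ v hv).1, ?_⟩
  by_cases h1 : v = pA (u + 1)
  · rw [h1, gp_one, ← h1]
    exact hv
  by_cases h2 : v = pM m k W u
  · rw [h2, gp_M, ← h2]
    exact hv
  rw [gp_of_ne h1 h2]
  exact (hZ v hv).2

/-- The rotation when the vertex `u + m + 1` is false. -/
theorem step_A [Finite W] (h : Ctx μ s) (hbad : Bad μ s) {T : Vt m k W → Bool}
    (hI : Inv μ s u w T) (hM : T (pM m k W u) = false) : Inv μ s (u + 1) w T := by
  have hT := hI.valid
  have h1 : T (pA (u + 1)) = true := by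
    have h2 := hT.hν (pM m k W u) (M_ne_A h.hm) pA_ne_pB
    rw [nu_M h.hm, hM] at h2
    exact h2
  refine ⟨⟨h1, hT.hB, hT.hμ, ?_⟩, ?_⟩
  · intro v hv1 hv2
    by_cases h0 : v = pA u
    · rw [h0, nu_back h.hm, hM, hT.hA]
      rfl
    by_cases h2 : v = pM m k W u
    · rw [h2, nu_back' h.hm, hM, hT.hA]
      rfl
    rw [nu_succ h0 hv1 h2, gp_of_ne hv1 h2]
    exact hT.hν v h0 hv2
  · intro Z hZ hA j hi hj
    by_cases h0 : pA u ∈ Z
    · by_contra hc
      have hc' : T (pB (w + ((j : ZMod (2 * k + 1)) + 1))) = false := by simpa using hc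
      have hMZ : pM m k W u ∈ Z := by
        have h3 := (hZ _ h0).2
        rwa [nu_back h.hm] at h3
      have hor := orient h hbad (Z := Z) (T := T) (fun v _ => hT.hμ v) hA j hZ
        (by
          intro v hv
          have hv1 : v ≠ pA (u + 1) := by
            rintro rfl
            exact hA hv
          by_cases h0 : v = pA u
          · rw [h0, nu_back h.hm, hM, hT.hA]
            rfl
          by_cases h2 : v = pM m k W u
          · rw [h2, nu_back' h.hm, hM, hT.hA]
            rfl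
          rw [nu_succ h0 hv1 h2, gp_of_ne hv1 h2]
          apply hT.hν v h0
          rintro rfl
          have := hi 0 (Nat.zero_le _)
          rw [Nat.cast_zero, add_zero] at this
          exact this hv)
        hi hj hc'
      have h3 : (pA (u + 1 + (m : ZMod (2 * m + 1))) : Vt m k W) = pM m k W u := by
        rw [pA_inj]
        ring
      have h4 := hor.2
      rw [h3] at h4
      have h5 := h4 hMZ
      rw [hM] at h5
      cases h5
    · exact hI.first Z (h.cl_left hZ h0 hA) h0 j hi hj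

/-- The path of the second kind of rotation ends in `u + 1`. -/
theorem path_end [Finite W] (h : Ctx μ s) (hbad : Bad μ s) {T : Vt m k W → Bool}
    (hI : Inv μ s u w T) (hM : T (pM m k W u) = true) :
    ∃ l, IsPath μ (gp s u w) (pA u) (pA (u + 1)) l := by
  obtain ⟨b, l, hp⟩ := exists_isPath h.μμ (gp_gp h (u := u) (w := w)) h.μne
    (x := pA u) (gp_A h.hm)
  have hT := hI.valid
  have hb := hp.color_b hT.hμ (gp_alt hT) hT.hA
  rcases gp_fixed h hp.hb with h1 | h1 | h1 | h1
  · rw [h1, hT.hA] at hb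
    cases hb
  · rw [h1] at hp
    exact ⟨l, hp⟩
  · rw [h1, hM] at hb
    cases hb
  · exfalso
    have hA1 : pA (u + 1) ∉ pset μ (gp s u w) (pA u) l := by
      intro h2
      rcases hp.fixed (gp_gp h (u := u) (w := w)) h2 gp_one with h3 | h3
      · exact one_ne_A h.hm h3
      · rw [h1] at h3
        exact pA_ne_pB h3
    have hM1 : pM m k W u ∉ pset μ (gp s u w) (pA u) l := by
      intro h2
      rcases hp.fixed (gp_gp h (u := u) (w := w)) h2 gp_M with h3 | h3
      · exact M_ne_A h.hm h3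
      · rw [h1] at h3
        exact pA_ne_pB h3
    have hU : Cl μ s u w (pset μ (gp s u w) (pA u) l) := by
      intro v hv
      refine ⟨IsPath.mem_f h.μμ hv, ?_⟩
      rw [← gp_of_ne (v := v)]
      · exact hp.mem_g (gp_gp h (u := u) (w := w)) hv
      · rintro rfl
        exact hA1 hv
      · rintro rfl
        exact hM1 hv
    have hZ := hU.compl h
    have hAZ : pA u ∉ (pset μ (gp s u w) (pA u) l)ᶜ := fun h2 => h2 x_mem
    have hBZ : pB w ∉ (pset μ (gp s u w) (pA u) l)ᶜ := h.B_notMem hZ hAZ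
    by_cases hB : ∃ j, pB j ∈ (pset μ (gp s u w) (pA u) l)ᶜ
    · obtain ⟨j, hj⟩ := hB
      obtain ⟨n, hn1, hn2⟩ := exists_first hBZ hj
      have h3 := hI.first _ hZ hAZ n hn1 hn2
      have hor := orient h hbad (Z := (pset μ (gp s u w) (pA u) l)ᶜ) (T := fun v => !T v)
        (fun v _ => by simp [hT.hμ v]) hAZ n hZ
        (by
          intro v hv
          have h4 : v ≠ pA u := by
            rintro rfl
            exact hAZ hv
          have h5 : v ≠ pB w := by
            rintro rfl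
            exact hBZ hv
          simp [hT.hν v h4 h5])
        hn1 hn2 (by simp [h3])
      have h4 := hor.1 hM1
      simp [hM] at h4
    · push Not at hB
      exact no_pure h hbad hZ hAZ hB (u + 1) hA1

/-- The rotation when the vertex `u + m + 1` is true. -/
theorem step_B [Finite W] (h : Ctx μ s) {T : Vt m k W → Bool}
    (hI : Inv μ s u w T) (hM : T (pM m k W u) = true) {l : ℕ}
    (hp : IsPath μ (gp s u w) (pA u) (pA (u + 1)) l) :
    Inv μ s (u + 1) w (flipOn (pset μ (gp s u w) (pA u) l) T) := by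
  have hT := hI.valid
  have hg := gp_gp h (u := u) (w := w)
  have h1 : T (pA (u + 1)) = false := by
    have h2 := hT.hν (pM m k W u) (M_ne_A h.hm) pA_ne_pB
    rw [nu_M h.hm, hM] at h2
    exact h2
  have hMU : pM m k W u ∉ pset μ (gp s u w) (pA u) l := by
    intro h2
    rcases hp.fixed hg h2 gp_M with h3 | h3
    · exact M_ne_A h.hm h3
    · exact one_ne_M h.hm h3.symm
  have hBU : pB w ∉ pset μ (gp s u w) (pA u) l := by
    intro h2
    have h4 : gp s u w (pB w) = pB w := by
      rw [gp_of_ne (fun h3 => pA_ne_pB h3.symm) (fun h3 => pA_ne_pB h3.symm), nu_Bw]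
    rcases hp.fixed hg h2 h4 with h3 | h3
    · exact pA_ne_pB h3.symm
    · exact pA_ne_pB h3.symm
  refine ⟨⟨?_, ?_, ?_, ?_⟩, ?_⟩
  · rw [flipOn_mem hp.b_mem, h1]
    rfl
  · rw [flipOn_notMem hBU, hT.hB]
  · intro v
    by_cases hv : v ∈ pset μ (gp s u w) (pA u) l
    · rw [flipOn_mem hv, flipOn_mem (IsPath.mem_f h.μμ hv), hT.hμ]
    · rw [flipOn_notMem hv, flipOn_notMem, hT.hμ]
      rwa [IsPath.mem_f_iff h.μμ]
  · intro v hv1 hv2
    by_cases h0 : v = pA u
    · rw [h0, nu_back h.hm, flipOn_notMem hMU, flipOn_mem x_mem, hM, hT.hA]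
      rfl
    by_cases h2 : v = pM m k W u
    · rw [h2, nu_back' h.hm, flipOn_notMem hMU, flipOn_mem x_mem, hM, hT.hA]
    have h3 : T (gp s u w v) = !T v := by
      rw [gp_of_ne hv1 h2]
      exact hT.hν v h0 hv2
    rw [nu_succ h0 hv1 h2]
    by_cases hv : v ∈ pset μ (gp s u w) (pA u) l
    · rw [flipOn_mem hv, flipOn_mem (hp.mem_g hg hv), h3]
    · rw [flipOn_notMem hv, flipOn_notMem, h3]
      rwa [hp.mem_g_iff hg]
  · intro Z hZ hA j hi hj
    have hZg := cl_gp h hZ hA
    by_cases h0 : pA u ∈ Z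
    · exact absurd h0 (hp.disj_of_b h.μμ hZg hA x_mem)
    · have hBZ : pB (w + ((j : ZMod (2 * k + 1)) + 1)) ∉ pset μ (gp s u w) (pA u) l :=
        fun h4 => disj_of_x h.μμ hg hZg h0 h4 hj
      rw [flipOn_notMem hBZ]
      exact hI.first Z (h.cl_left hZ h0 hA) h0 j hi hj

end Pool.Agent.Helper19.TT
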