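import Pool.Agent.Helper19.TT.Rotate

/-!
The sign of the assignment of matching edges.  (Problem MP_d067c8_co.)
-/

namespace Pool.Agent.Helper19.TT

variable {m k : ℕ} {W : Type*}
variable {μ : Vt m k W → Vt m k W} {s : W → W}
variable {u : ZMod (2 * m + 1)} {w : ZMod (2 * k + 1)}

/-- Labels. -/
abbrev Jt (m k : ℕ) (W : Type*) := ZMod (m + 1) ⊕ (ZMod (2 * k + 1) ⊕ W)

/-- The partner map outside of the first cycle. -/
def rr (s : W → W) (w : ZMod (2 * k + 1)) : ZMod (2 * k + 1) ⊕ W → ZMod (2 * k + 1) ⊕ W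
  | Sum.inl j => Sum.inl (prt k w j)
  | Sum.inr z => Sum.inr (s z)

theorem nu_inr (z : ZMod (2 * k + 1) ⊕ W) :
    nu s u w (Sum.inr z) = (Sum.inr (rr s w z) : Vt m k W) := by
  rcases z with j | z <;> rfl

/-- The label of a vertex. -/
def bl (s : W → W) (w : ZMod (2 * k + 1)) (T0 : Vt m k W → Bool) (u : ZMod (2 * m + 1)) :
    Vt m k W → Jt m k W
  | Sum.inl i => Sum.inl (lab m u i)
  | Sum.inr z => Sum.inr (if T0 (Sum.inr z) = true then z else rr s w z)

/-- The end of the edge `v, μ v` which is true. -/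
def tr (μ : Vt m k W → Vt m k W) (T : Vt m k W → Bool) (v : Vt m k W) : Vt m k W :=
  if T v = true then v else μ v

/-- The shift of the labels of the first cycle. -/
def shZ (m : ℕ) : Equiv.Perm (ZMod (m + 1)) where
  toFun l := l - 1
  invFun l := l + 1
  left_inv l := by ring
  right_inv l := by ring

theorem sign_shZ (m : ℕ) : Equiv.Perm.sign (shZ m) = (-1) ^ m := by
  have h1 : (shZ m)⁻¹ = (finRotate (m + 1) : Equiv.Perm (Fin (m + 1))) := by
    apply Equiv.ext
    intro i
    exact (finRotate_apply (n := m + 1) i).symm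
  rw [← Equiv.Perm.sign_inv, h1]
  exact sign_finRotate (m + 1)

/-- The shift of the labels. -/
def shf (m k : ℕ) (W : Type*) : Equiv.Perm (Jt m k W) :=
  Equiv.Perm.sumCongr (shZ m) 1

theorem shf_inl (l : ZMod (m + 1)) : shf m k W (Sum.inl l) = Sum.inl (l - 1) := rfl

theorem sign_shf [Fintype W] [DecidableEq W] : Equiv.Perm.sign (shf m k W) = (-1) ^ m := by
  rw [shf, Equiv.Perm.sign_sumCongr, sign_shZ, Equiv.Perm.sign_one, mul_one]

theorem shf_inr (z : ZMod (2 * k + 1) ⊕ W) : shf m k W (Sum.inr z) = Sum.inr z := rfl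

theorem tr_true {T : Vt m k W → Bool} (hT : ∀ v, T (μ v) = !T v) (v : Vt m k W) :
    T (tr μ T v) = true := by
  unfold tr
  split_ifs with h
  · exact h
  · rw [hT]
    simpa using h

theorem tr_mu (h : Ctx μ s) {T : Vt m k W → Bool} (hT : ∀ v, T (μ v) = !T v) (v : Vt m k W) :
    tr μ T (μ v) = tr μ T v := by
  unfold tr
  rw [hT, h.μμ]
  rcases T v with _ | _ <;> rfl

theorem tr_of_true {T : Vt m k W → Bool} {v : Vt m k W} (hv : T v = true) : tr μ T v = v := by
  unfold tr
  rw [if_pos hv]

theorem tr_cases (T : Vt m k W → Bool) (v : Vt m k W) : tr μ T v = v ∨ tr μ T v = μ v := by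
  unfold tr
  split_ifs
  · exact Or.inl rfl
  · exact Or.inr rfl

theorem tr_inj (h : Ctx μ s) {T T0 : Vt m k W → Bool} (hT0 : ∀ v, T0 (μ v) = !T0 v)
    {v v' : Vt m k W} (hv : T0 v = true) (hv' : T0 v' = true) (he : tr μ T v = tr μ T v') :
    v = v' := by
  have h1 := hT0 v
  have h2 := hT0 v'
  rcases tr_cases (μ := μ) T v with h3 | h3 <;> rcases tr_cases (μ := μ) T v' with h4 | h4
  · rw [← h3, ← h4, he]
  · exfalso
    rw [h3, h4] at he
    rw [← he, hv, hv'] at h2
    cases h2
  · exfalso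
    rw [h3, h4] at he
    rw [he, hv, hv'] at h1
    cases h1
  · rw [h3, h4] at he
    rw [← h.μμ v, he, h.μμ]

section labels

variable {T0 : Vt m k W → Bool}

theorem bl_A : bl s w T0 u (pA u) = Sum.inl 0 := by
  show (Sum.inl (lab m u u) : Jt m k W) = _
  rw [lab_self]

theorem bl_one (hm : 1 ≤ m) : bl s w T0 u (pA (u + 1)) = Sum.inl 1 := by
  show (Sum.inl (lab m u (u + 1)) : Jt m k W) = _
  rw [lab_one hm]

theorem bl_M (hm : 1 ≤ m) : bl s w T0 u (pM m k W u) = Sum.inl 1 := by
  show (Sum.inl (lab m u _) : Jt m k W) = _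
  rw [lab_m1 hm]

theorem bl_shift {v : Vt m k W} (hv : v ≠ pM m k W u) :
    bl s w T0 (u + 1) v = shf m k W (bl s w T0 u v) := by
  rcases v with i | z
  · show (Sum.inl (lab m (u + 1) i) : Jt m k W) = shf m k W (Sum.inl (lab m u i))
    rw [shf_inl, lab_shift]
    rintro rfl
    exact hv rfl
  · rfl

theorem bl_back (hm : 1 ≤ m) :
    bl s w T0 (u + 1) (pM m k W u) = shf m k W (Sum.inl 0) := by
  show (Sum.inl (lab m (u + 1) _) : Jt m k W) = _
  rw [lab_back hm, shf_inl, zero_sub]

theorem bl_nu (h : Ctx μ s) {u0 : ZMod (2 * m + 1)} (hT0 : Valid μ s u0 w T0) (v : Vt m k W) :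
    bl s w T0 u (nu s u w v) = bl s w T0 u v := by
  rcases v with i | z
  · show (Sum.inl (lab m u (prt m u i)) : Jt m k W) = Sum.inl (lab m u i)
    rw [lab_prt]
  · rw [nu_inr]
    have hrr : rr s w (rr s w z) = z := by
      have h1 := h.nu_nu (u := u) (w := w) (Sum.inr z)
      rw [nu_inr, nu_inr] at h1
      exact Sum.inr_injective h1
    by_cases hz : z = Sum.inl w
    · subst hz
      have h2 : rr s w (Sum.inl w) = Sum.inl w := by
        show Sum.inl (prt k w w) = _
        rw [prt_self]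
      rw [h2]
    · have h3 : T0 (Sum.inr (rr s w z)) = !T0 (Sum.inr z) := by
        rw [← nu_inr (m := m) (u := u0)]
        apply hT0.hν
        · intro h4
          cases h4
        · intro h4
          exact hz (Sum.inr_injective h4)
      show (Sum.inr (if T0 (Sum.inr (rr s w z)) = true then rr s w z
        else rr s w (rr s w z)) : Jt m k W) = Sum.inr (if T0 (Sum.inr z) = true then z
        else rr s w z)
      rw [h3, hrr]
      rcases T0 (Sum.inr z) with _ | _ <;> rfl

theorem bl_inj (h : Ctx μ s) {T : Vt m k W → Bool} (hT : Valid μ s u w T)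
    {x y : Vt m k W} (hx : T x = true) (hy : T y = true)
    (he : bl s w T0 u x = bl s w T0 u y) : x = y := by
  have key : ∀ x y : Vt m k W, T x = true → T y = true → y = nu s u w x → x = y := by
    intro x y hx hy hxy
    by_cases h1 : x = pA u
    · rw [h1, nu_Au] at hxy
      rw [h1, hxy]
    · exfalso
      have h2 : x ≠ pB w := by
        rintro rfl
        rw [hT.hB] at hx
        cases hx
      have h3 := hT.hν x h1 h2
      rw [← hxy, hx, hy] at h3
      cases h3
  have hrr : ∀ z, rr s w (rr s w z) = z := by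
    intro z
    have h1 := h.nu_nu (u := u) (w := w) (Sum.inr z)
    rw [nu_inr, nu_inr] at h1
    exact Sum.inr_injective h1
  rcases x with i | z <;> rcases y with j | z'
  · have h1 : lab m u i = lab m u j := Sum.inl_injective he
    rcases lab_inj h1 with h2 | h2
    · rw [h2]
    · apply key _ _ hx hy
      rw [h2]
      rfl
  · cases he
  · cases he
  · have h1 := Sum.inr_injective he
    split_ifs at h1 with h2 h3 h3
    · rw [h1]
    · apply key _ _ hx hy
      rw [nu_inr, h1, hrr]
    · apply key _ _ hx hy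
      rw [nu_inr, h1]
    · have h4 := congrArg (rr s w) h1
      rw [hrr, hrr] at h4
      rw [h4]

/-- Every label of the first cycle is attained. -/
theorem bl_surj {T : Vt m k W → Bool} (hT : Valid μ s u w T) (l : ZMod (m + 1)) :
    ∃ x, T x = true ∧ bl s w T0 u x = Sum.inl l := by
  have h1 : lab m u (u + ((l.val : ℕ) : ZMod (2 * m + 1))) = l := by
    rw [lab, add_sub_cancel_left, loff_low (by have := ZMod.val_lt l; omega),
      ZMod.natCast_zmod_val]
  set i : ZMod (2 * m + 1) := u + ((l.val : ℕ) : ZMod (2 * m + 1))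
  rcases hi : T (pA i) with _ | _
  · refine ⟨nu s u w (pA i), ?_, ?_⟩
    · rw [hT.hν, hi]
      · rfl
      · intro h2
        rw [h2, hT.hA] at hi
        cases hi
      · exact pA_ne_pB
    · show (Sum.inl (lab m u (prt m u i)) : Jt m k W) = Sum.inl l
      rw [lab_prt, h1]
  · refine ⟨pA i, hi, ?_⟩
    show (Sum.inl (lab m u i) : Jt m k W) = Sum.inl l
    rw [h1]

end labels

/-- The matching edges, represented by their true ends. -/
abbrev It (T0 : Vt m k W → Bool) := {v : Vt m k W // T0 v = true}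

/-- The label of the true end of a matching edge. -/
def EE (μ : Vt m k W → Vt m k W) (s : W → W) (w : ZMod (2 * k + 1)) (T0 : Vt m k W → Bool)
    (u : ZMod (2 * m + 1)) (T : Vt m k W → Bool) (v : It T0) : Jt m k W :=
  bl s w T0 u (tr μ T v.1)

/-- The product of the signs of the flipped edges. -/
def eps [Fintype W] [DecidableEq W] (T0 T : Vt m k W → Bool) : ℤˣ :=
  ∏ v : It T0, if T v.1 = true then 1 else -1

section final

variable [Fintype W] [DecidableEq W] {T0 : Vt m k W → Bool}

theorem eps_self : eps T0 T0 = 1 := by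
  unfold eps
  apply Finset.prod_eq_one
  intro v _
  rw [if_pos v.2]

omit [Fintype W] [DecidableEq W] in
theorem EE_inj (h : Ctx μ s) (hT0 : ∀ v, T0 (μ v) = !T0 v) {T : Vt m k W → Bool}
    (hT : Valid μ s u w T) : Function.Injective (EE μ s w T0 u T) := by
  intro v v' he
  apply Subtype.ext
  apply tr_inj h hT0 v.2 v'.2
  exact bl_inj h hT (tr_true hT.hμ _) (tr_true hT.hμ _) he

/-- If `E` is carried to itself by `L` and `K`, their signs agree. -/
theorem sign_eq (h : Ctx μ s) (hT0 : Valid μ s u w T0)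
    (L : Equiv.Perm (Jt m k W)) (K : Equiv.Perm (It T0))
    (hL : ∀ z, L (Sum.inr z) = Sum.inr z)
    (hE : ∀ v, EE μ s w T0 u T0 v = L (EE μ s w T0 u T0 (K v))) :
    Equiv.Perm.sign L = Equiv.Perm.sign K := by
  have hinj := EE_inj h hT0.hμ hT0
  let f : It T0 ↪ Jt m k W := ⟨EE μ s w T0 u T0, hinj⟩
  have h1 : L = K⁻¹.viaFintypeEmbedding f := by
    ext1 j
    by_cases hj : j ∈ Set.range f
    · obtain ⟨v, rfl⟩ := hj
      rw [Equiv.Perm.viaFintypeEmbedding_apply_image]
      have h2 := hE (K⁻¹ v)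
      rw [← Equiv.Perm.mul_apply, mul_inv_cancel, Equiv.Perm.one_apply] at h2
      exact h2.symm
    · rw [Equiv.Perm.viaFintypeEmbedding_apply_notMem_range _ _ hj]
      rcases j with l | z
      · exfalso
        obtain ⟨x, hx1, hx2⟩ := bl_surj (T0 := T0) hT0 l
        apply hj
        refine ⟨⟨x, hx1⟩, ?_⟩
        show bl s w T0 u (tr μ T0 x) = _
        rw [tr_of_true hx1, hx2]
      · exact hL z
  rw [h1, Equiv.Perm.viaFintypeEmbedding_sign, Equiv.Perm.sign_inv]

omit [Fintype W] [DecidableEq W] in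
theorem EE_A {T : Vt m k W → Bool} (hT : Valid μ s u w T)
    (hM : T (pM m k W u) = false) (v : It T0) :
    EE μ s w T0 (u + 1) T v = shf m k W (EE μ s w T0 u T v) := by
  apply bl_shift
  intro h1
  have h2 := tr_true hT.hμ v.1
  rw [h1, hM] at h2
  cases h2

end final

end Pool.Agent.Helper19.TT
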