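import Pool.Agent.Helper19.TT.Model

/-!
The orientation lemma, closed sets without vertices on the second cycle, and the rotation of
the first unmatched vertex.  (Problem MP_d067c8_co.)
-/

namespace Pool.Agent.Helper19.TT

variable {m k : ℕ} {W : Type*}
variable {μ : Vt m k W → Vt m k W} {s : W → W}
variable {u : ZMod (2 * m + 1)} {w : ZMod (2 * k + 1)}

/-- Flip a colouring on a set. -/
noncomputable def flipOn {V : Type*} (U : Set V) (T : V → Bool) : V → Bool :=
  open Classical in fun v => if v ∈ U then !T v else T v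

theorem flipOn_mem {V : Type*} {U : Set V} {T : V → Bool} {v : V} (hv : v ∈ U) :
    flipOn U T v = !T v := by
  classical
  simp only [flipOn, hv, if_true]

theorem flipOn_notMem {V : Type*} {U : Set V} {T : V → Bool} {v : V} (hv : v ∉ U) :
    flipOn U T v = T v := by
  classical
  simp only [flipOn, hv, if_false]

/-- The negation of the statement to be proved. -/
def Bad (μ : Vt m k W → Vt m k W) (s : W → W) : Prop :=
  ∀ u w T, Valid μ s u w T → T (pB (w + ((k : ZMod (2 * k + 1)) + 1))) = true →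
    T (pA (u + ((m : ZMod (2 * m + 1)) + 1))) = true ∧ T (pA (u + (m : ZMod (2 * m + 1)))) = true

/-- The invariant of the rotation. -/
structure Inv (μ : Vt m k W → Vt m k W) (s : W → W) (u : ZMod (2 * m + 1))
    (w : ZMod (2 * k + 1)) (T : Vt m k W → Bool) : Prop where
  valid : Valid μ s u w T
  first : ∀ Z, Cl μ s u w Z → pA u ∉ Z → ∀ j : ℕ, (∀ i ≤ j, pB (w + (i : ZMod (2 * k + 1))) ∉ Z) →
    pB (w + ((j : ZMod (2 * k + 1)) + 1)) ∈ Z → T (pB (w + ((j : ZMod (2 * k + 1)) + 1))) = true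

theorem exists_first {Z : Set (Vt m k W)} (h0 : pB w ∉ Z) {j : ZMod (2 * k + 1)}
    (hj : pB j ∈ Z) : ∃ n : ℕ, (∀ i ≤ n, pB (w + (i : ZMod (2 * k + 1))) ∉ Z) ∧
      pB (w + ((n : ZMod (2 * k + 1)) + 1)) ∈ Z := by
  classical
  have hex : ∃ n : ℕ, pB (w + (n : ZMod (2 * k + 1))) ∈ Z := by
    refine ⟨(j - w).val, ?_⟩
    rw [ZMod.natCast_zmod_val, add_sub_cancel]
    exact hj
  have h1 : Nat.find hex ≠ 0 := by
    intro h2
    have h3 := Nat.find_spec hex
    rw [h2, Nat.cast_zero, add_zero] at h3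
    exact h0 h3
  refine ⟨Nat.find hex - 1, fun i hi => Nat.find_min hex (by omega), ?_⟩
  have h3 := Nat.find_spec hex
  have h4 : ((Nat.find hex : ℕ) : ZMod (2 * k + 1)) =
      ((Nat.find hex - 1 : ℕ) : ZMod (2 * k + 1)) + 1 := by
    rw [Nat.cast_sub (by omega), Nat.cast_one]
    ring
  rw [h4] at h3
  exact h3

theorem Cl.compl (h : Ctx μ s) {Z : Set (Vt m k W)} (hZ : Cl μ s u w Z) :
    Cl μ s u w Zᶜ := by
  intro v hv
  refine ⟨fun h1 => hv ?_, fun h1 => hv ?_⟩
  · simpa only [h.μμ] using (hZ _ h1).1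
  · simpa only [h.nu_nu] using (hZ _ h1).2

theorem Cl.union {Z Z' : Set (Vt m k W)} (hZ : Cl μ s u w Z) (hZ' : Cl μ s u w Z') :
    Cl μ s u w (Z ∪ Z') := by
  rintro v (hv | hv)
  · exact ⟨Or.inl (hZ v hv).1, Or.inl (hZ v hv).2⟩
  · exact ⟨Or.inr (hZ' v hv).1, Or.inr (hZ' v hv).2⟩

theorem Valid.flip [Finite W] (h : Ctx μ s) {Z : Set (Vt m k W)} (hZ : Cl μ s u w Z)
    (hA : pA u ∉ Z) {T : Vt m k W → Bool} (hT : Valid μ s u w T) :
    Valid μ s u w (flipOn Z T) := by
  classical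
  have hB := h.B_notMem hZ hA
  have h1 := Ctx.mix h hZ hA hB (T := fun v => !T v) hT
    (by intro v _; simp [hT.hμ v]) (by
      intro v hv
      have h2 : v ≠ pA u := by
        rintro rfl
        exact hA hv
      have h3 : v ≠ pB w := by
        rintro rfl
        exact hB hv
      simp [hT.hν v h2 h3])
  exact h1

/-- The orientation lemma. -/
theorem orient [Finite W] (h : Ctx μ s) (hbad : Bad μ s) {Z : Set (Vt m k W)}
    {T : Vt m k W → Bool} (hT1 : ∀ v ∈ Z, T (μ v) = !T v) (hA : pA u ∉ Z) (j : ℕ) :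
    ∀ {w : ZMod (2 * k + 1)}, Cl μ s u w Z → (∀ v ∈ Z, T (nu s u w v) = !T v) →
    (∀ i ≤ j, pB (w + (i : ZMod (2 * k + 1))) ∉ Z) → pB (w + ((j : ZMod (2 * k + 1)) + 1)) ∈ Z →
    T (pB (w + ((j : ZMod (2 * k + 1)) + 1))) = false →
    (pA (u + ((m : ZMod (2 * m + 1)) + 1)) ∈ Z → T (pA (u + ((m : ZMod (2 * m + 1)) + 1))) = true) ∧
      (pA (u + (m : ZMod (2 * m + 1))) ∈ Z → T (pA (u + (m : ZMod (2 * m + 1)))) = true) := by
  classical
  induction j with
  | zero =>
    intro w hZ hT2 hi hj hTj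
    have h0 : pB w ∉ Z := by
      have h1 := hi 0 le_rfl
      rwa [Nat.cast_zero, add_zero] at h1
    rw [Nat.cast_zero, zero_add] at hj hTj
    obtain ⟨T', hT'⟩ := h.exists_valid u w
    have hV := Ctx.mix h hZ hA h0 hT' hT1 hT2
    have h1 := hV.hν (pB (w + 1)) (fun h2 => pA_ne_pB h2.symm)
      (fun h2 => one_ne h.hk w (pB_inj.mp h2))
    rw [nu_B, prt_one h.hk] at h1
    simp only [hj, if_true, hTj, Bool.not_false] at h1
    have h2 := hbad u w _ hV h1
    constructor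
    · intro h3
      have h4 := h2.1
      simp only [h3, if_true] at h4
      exact h4
    · intro h3
      have h4 := h2.2
      simp only [h3, if_true] at h4
      exact h4
  | succ j ih =>
    intro w hZ hT2 hi hj hTj
    have h0 : pB w ∉ Z := by
      have h1 := hi 0 (Nat.zero_le _)
      rwa [Nat.cast_zero, add_zero] at h1
    have h1 : pB (w + 1) ∉ Z := by
      have h1 := hi 1 (by omega)
      rwa [Nat.cast_one] at h1
    have hc : w + 1 + ((j : ZMod (2 * k + 1)) + 1) =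
        w + (((j + 1 : ℕ) : ZMod (2 * k + 1)) + 1) := by
      push_cast
      ring
    apply ih (w := w + 1) (h.cl_up hZ h0 h1)
    · intro v hv
      rw [h.nu_up hZ h0 h1 hv]
      exact hT2 v hv
    · intro i hi'
      have h2 := hi (i + 1) (by omega)
      have h3 : w + 1 + (i : ZMod (2 * k + 1)) = w + ((i + 1 : ℕ) : ZMod (2 * k + 1)) := by
        push_cast
        ring
      rwa [h3]
    · rwa [hc]
    · rwa [hc]

/-- The partner map when the second cycle is unmatched. -/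
def nuA (s : W → W) (u : ZMod (2 * m + 1)) : Vt m k W → Vt m k W
  | Sum.inl i => Sum.inl (prt m u i)
  | Sum.inr (Sum.inl j) => Sum.inr (Sum.inl j)
  | Sum.inr (Sum.inr z) => Sum.inr (Sum.inr (s z))

theorem nuA_nuA (h : Ctx μ s) (v : Vt m k W) : nuA s u (nuA s u v) = v := by
  rcases v with i | j | z
  · show Sum.inl _ = _
    rw [prt_prt]
  · rfl
  · show Sum.inr (Sum.inr _) = _
    rw [h.ss]

theorem pure_step [Finite W] (h : Ctx μ s) (hbad : Bad μ s) {Z : Set (Vt m k W)}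
    (hZ : Cl μ s u w Z) (hA : pA u ∉ Z) (hB : ∀ j, pB j ∉ Z) : pA (u + 1) ∉ Z := by
  intro hA1
  obtain ⟨b, l, hp⟩ := exists_isPath h.μμ (nuA_nuA h (u := u)) h.μne
    (x := pA u) (show (Sum.inl (prt m u u) : Vt m k W) = Sum.inl u by rw [prt_self])
  obtain ⟨T, hT⟩ := h.exists_valid u w
  have hTg : ∀ v, nuA s u v ≠ v → T (nuA s u v) = !T v := by
    intro v hv
    rcases v with i | j | z
    · apply hT.hν (Sum.inl i)
      · intro h1
        apply hv
        rw [h1]
        show (Sum.inl (prt m u u) : Vt m k W) = Sum.inl u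
        rw [prt_self]
      · exact pA_ne_pB
    · exact absurd rfl hv
    · exact hT.hν (Sum.inr (Sum.inr z)) (by intro h1; cases h1) (by intro h1; cases h1)
  have hb := hp.color_b hT.hμ hTg hT.hA
  obtain ⟨w', rfl⟩ : ∃ w', b = pB w' := by
    rcases b with i | j | z
    · exfalso
      by_cases h1 : i = u
      · rw [h1, hT.hA] at hb
        cases hb
      · exact prt_ne h1 (Sum.inl_injective hp.hb)
    · exact ⟨j, rfl⟩
    · exact absurd (Sum.inr_injective (Sum.inr_injective hp.hb)) (h.sne z)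
  have hZg : ∀ v ∈ Z, μ v ∈ Z ∧ nuA s u v ∈ Z := by
    intro v hv
    refine ⟨(hZ v hv).1, ?_⟩
    rcases v with i | j | z
    · exact (hZ _ hv).2
    · exact absurd hv (hB j)
    · exact (hZ _ hv).2
  have hdisj : ∀ v ∈ pset μ (nuA s u) (pA u) l, v ∉ Z := fun v hv =>
    disj_of_x h.μμ (nuA_nuA h (u := u)) hZg hA hv
  have hU : Cl μ s u w' (pset μ (nuA s u) (pA u) l) := by
    intro v hv
    refine ⟨IsPath.mem_f h.μμ hv, ?_⟩
    have hg := hp.mem_g (nuA_nuA h (u := u)) hv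
    rcases v with i | j | z
    · exact hg
    · rcases hp.fixed (nuA_nuA h (u := u)) hv rfl with h1 | h1
      · cases h1
      · rw [h1, nu_Bw]
        exact hp.b_mem
    · exact hg
  have hZ' : Cl μ s u w' Z := by
    intro v hv
    refine ⟨(hZ v hv).1, ?_⟩
    rcases v with i | j | z
    · exact (hZ _ hv).2
    · exact absurd hv (hB j)
    · exact (hZ _ hv).2
  set U := pset μ (nuA s u) (pA u) l with hUdef
  have hR : Cl μ s u w' (U ∪ Z)ᶜ := (hU.union hZ').compl h
  have hAR : pA u ∉ (U ∪ Z)ᶜ := fun h1 => h1 (Or.inl x_mem)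
  have hAm : pA (u + ((m : ZMod (2 * m + 1)) + 1)) ∈ Z := by
    have h1 := (hZ _ hA1).2
    rwa [nu_A, prt_one h.hm] at h1
  have hBk : pB (w' + ((k : ZMod (2 * k + 1)) + 1)) ∈ (U ∪ Z)ᶜ := by
    rintro (h1 | h1)
    · rcases hp.fixed (nuA_nuA h (u := u)) h1 rfl with h2 | h2
      · cases h2
      · exact m_ne h.hk w' (pB_inj.mp h2).symm
    · exact hB _ h1
  obtain ⟨T0, hT0⟩ := h.exists_valid u w'
  obtain ⟨T1, hT1, hT1A⟩ : ∃ T1, Valid μ s u w' T1 ∧ T1 (pA (u + ((m : ZMod (2 * m + 1)) + 1))) = false := by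
    rcases hc : T0 (pA (u + ((m : ZMod (2 * m + 1)) + 1))) with _ | _
    · exact ⟨T0, hT0, hc⟩
    · refine ⟨flipOn Z T0, hT0.flip h hZ' hA, ?_⟩
      rw [flipOn_mem hAm, hc]
      rfl
  obtain ⟨T2, hT2, hT2A, hT2B⟩ : ∃ T2, Valid μ s u w' T2 ∧ T2 (pA (u + ((m : ZMod (2 * m + 1)) + 1))) = false ∧
      T2 (pB (w' + ((k : ZMod (2 * k + 1)) + 1))) = true := by
    rcases hc : T1 (pB (w' + ((k : ZMod (2 * k + 1)) + 1))) with _ | _
    · refine ⟨flipOn (U ∪ Z)ᶜ T1, hT1.flip h hR hAR, ?_, ?_⟩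
      · rw [flipOn_notMem, hT1A]
        exact fun h1 => h1 (Or.inr hAm)
      · rw [flipOn_mem hBk, hc]
        rfl
    · exact ⟨T1, hT1, hT1A, hc⟩
  have := (hbad u w' T2 hT2 hT2B).1
  rw [hT2A] at this
  cases this

/-- Closed sets without vertices on the second cycle have none on the first. -/
theorem no_pure [Finite W] (h : Ctx μ s) (hbad : Bad μ s) {Z : Set (Vt m k W)}
    (hZ : Cl μ s u w Z) (hA : pA u ∉ Z) (hB : ∀ j, pB j ∉ Z) (i : ZMod (2 * m + 1)) :
    pA i ∉ Z := by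
  have key : ∀ n : ℕ, Cl μ s (u + (n : ZMod (2 * m + 1))) w Z ∧ pA (u + (n : ZMod (2 * m + 1))) ∉ Z := by
    intro n
    induction n with
    | zero =>
      rw [Nat.cast_zero, add_zero]
      exact ⟨hZ, hA⟩
    | succ n ih =>
      have h1 := pure_step h hbad ih.1 ih.2 hB
      have h2 := h.cl_right ih.1 ih.2 h1
      rw [Nat.cast_add, Nat.cast_one, ← add_assoc]
      exact ⟨h2, h1⟩
  have h1 := (key (i - u).val).2
  rwa [ZMod.natCast_zmod_val, add_sub_cancel] at h1

/-- The invariant can be satisfied. -/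
theorem exists_inv [Finite W] (h : Ctx μ s) (u : ZMod (2 * m + 1)) (w : ZMod (2 * k + 1)) :
    ∃ T, Inv μ s u w T := by
  have key : ∀ n : ℕ, ∃ T, Valid μ s u w T ∧ ∀ Z, Cl μ s u w Z → pA u ∉ Z →
      ∀ j : ℕ, j < n → (∀ i ≤ j, pB (w + (i : ZMod (2 * k + 1))) ∉ Z) →
      pB (w + ((j : ZMod (2 * k + 1)) + 1)) ∈ Z → T (pB (w + ((j : ZMod (2 * k + 1)) + 1))) = true := by
    intro n
    induction n with
    | zero =>
      obtain ⟨T, hT⟩ := h.exists_valid u w
      exact ⟨T, hT, fun Z _ _ j hj => absurd hj (Nat.not_lt_zero j)⟩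
    | succ n ih =>
      obtain ⟨T, hT, hT1⟩ := ih
      by_cases hex : ∃ Z, Cl μ s u w Z ∧ pA u ∉ Z ∧
          (∀ i ≤ n, pB (w + (i : ZMod (2 * k + 1))) ∉ Z) ∧
          pB (w + ((n : ZMod (2 * k + 1)) + 1)) ∈ Z ∧
          T (pB (w + ((n : ZMod (2 * k + 1)) + 1))) = false
      · obtain ⟨Z, hZ, hA, hi, hj, hTj⟩ := hex
        refine ⟨flipOn Z T, hT.flip h hZ hA, ?_⟩
        intro Z' hZ' hA' j hj' hi' hm'
        rcases Nat.lt_or_ge j n with h1 | h1
        · rw [flipOn_notMem]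
          · exact hT1 Z' hZ' hA' j h1 hi' hm'
          · have h2 := hi (j + 1) (by omega)
            rwa [Nat.cast_add, Nat.cast_one] at h2
        · have h2 : j = n := by omega
          rw [h2, flipOn_mem hj, hTj]
          rfl
      · refine ⟨T, hT, ?_⟩
        intro Z' hZ' hA' j hj' hi' hm'
        rcases Nat.lt_or_ge j n with h1 | h1
        · exact hT1 Z' hZ' hA' j h1 hi' hm'
        · have h2 : j = n := by omega
          subst h2
          by_contra h3
          exact hex ⟨Z', hZ', hA', hi', hm', by simpa using h3⟩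
  obtain ⟨T, hT, hT1⟩ := key (2 * k + 1)
  refine ⟨T, hT, fun Z hZ hA j hi hj => ?_⟩
  rcases Nat.lt_or_ge j (2 * k + 1) with h1 | h1
  · exact hT1 Z hZ hA j h1 hi hj
  · exfalso
    have h2 := hi ((w + ((j : ZMod (2 * k + 1)) + 1)) - w).val (by
      have := ZMod.val_lt ((w + ((j : ZMod (2 * k + 1)) + 1)) - w)
      omega)
    rw [ZMod.natCast_zmod_val, add_sub_cancel] at h2
    exact h2 hj

end Pool.Agent.Helper19.TT
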