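import Pool.Agent.Helper19.TT.Color

/-!
The near perfect matchings of an odd cycle, in the parametrisation by steps of length two.
(Problem MP_d067c8_co.)
-/

namespace Pool.Agent.Helper19.TT

section ring

variable (m : ℕ)

/-- The partner of the vertex at offset `t` (offset `0` is unmatched). -/
def poff (t : ZMod (2 * m + 1)) : ZMod (2 * m + 1) :=
  if t.val = 0 then t else if t.val ≤ m then t + m else t - m

/-- The partner of `i` when `u` is unmatched. -/
def prt (u i : ZMod (2 * m + 1)) : ZMod (2 * m + 1) := u + poff m (i - u)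

/-- The label of the vertex at offset `t`. -/
def loff (t : ZMod (2 * m + 1)) : ZMod (m + 1) :=
  if t.val ≤ m then (t.val : ZMod (m + 1)) else ((t.val - m : ℕ) : ZMod (m + 1))

/-- The label of `i` when `u` is unmatched. -/
def lab (u i : ZMod (2 * m + 1)) : ZMod (m + 1) := loff m (i - u)

variable {m}

theorem exists_nat (t : ZMod (2 * m + 1)) : ∃ n : ℕ, n ≤ 2 * m ∧ t = (n : ZMod (2 * m + 1)) :=
  ⟨t.val, by have := ZMod.val_lt t; omega, (ZMod.natCast_zmod_val t).symm⟩

theorem val_nat {n : ℕ} (hn : n ≤ 2 * m) : ((n : ℕ) : ZMod (2 * m + 1)).val = n := by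
  rw [ZMod.val_natCast, Nat.mod_eq_of_lt (by omega)]

theorem nat_inj {n r : ℕ} (hn : n ≤ 2 * m) (hr : r ≤ 2 * m)
    (h : (n : ZMod (2 * m + 1)) = (r : ZMod (2 * m + 1))) : n = r := by
  rw [← val_nat hn, ← val_nat hr, h]

theorem two_m : ((2 * m + 1 : ℕ) : ZMod (2 * m + 1)) = 0 := ZMod.natCast_self _

theorem poff_zero : poff m 0 = 0 := by simp [poff]

theorem poff_low {n : ℕ} (h1 : 1 ≤ n) (h2 : n ≤ m) :
    poff m (n : ZMod (2 * m + 1)) = ((n + m : ℕ) : ZMod (2 * m + 1)) := by
  rw [poff, val_nat (by omega), if_neg (by omega), if_pos h2]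
  push_cast
  ring

theorem poff_high {n : ℕ} (h1 : 1 ≤ n) (h2 : n ≤ m) :
    poff m ((n + m : ℕ) : ZMod (2 * m + 1)) = (n : ZMod (2 * m + 1)) := by
  rw [poff, val_nat (by omega), if_neg (by omega), if_neg (by omega)]
  push_cast
  ring

/-- The three kinds of offsets. -/
theorem cases_off (t : ZMod (2 * m + 1)) :
    t = 0 ∨ (∃ n : ℕ, 1 ≤ n ∧ n ≤ m ∧ t = (n : ZMod (2 * m + 1))) ∨
      (∃ n : ℕ, 1 ≤ n ∧ n ≤ m ∧ t = ((n + m : ℕ) : ZMod (2 * m + 1))) := by
  obtain ⟨n, hn, rfl⟩ := exists_nat t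
  rcases Nat.eq_zero_or_pos n with h | h
  · left
    rw [h, Nat.cast_zero]
  · right
    rcases Nat.lt_or_ge m n with h1 | h1
    · right
      exact ⟨n - m, by omega, by omega, by congr 1; omega⟩
    · left
      exact ⟨n, h, h1, rfl⟩

theorem poff_poff (t : ZMod (2 * m + 1)) : poff m (poff m t) = t := by
  rcases cases_off t with rfl | ⟨n, h1, h2, rfl⟩ | ⟨n, h1, h2, rfl⟩
  · rw [poff_zero, poff_zero]
  · rw [poff_low h1 h2, poff_high h1 h2]
  · rw [poff_high h1 h2, poff_low h1 h2]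

theorem poff_ne (t : ZMod (2 * m + 1)) (ht : t ≠ 0) : poff m t ≠ t := by
  rcases cases_off t with rfl | ⟨n, h1, h2, rfl⟩ | ⟨n, h1, h2, rfl⟩
  · exact absurd rfl ht
  · rw [poff_low h1 h2]
    intro h
    have := nat_inj (by omega) (by omega) h
    omega
  · rw [poff_high h1 h2]
    intro h
    have := nat_inj (by omega) (by omega) h
    omega

theorem loff_low {n : ℕ} (h2 : n ≤ m) :
    loff m (n : ZMod (2 * m + 1)) = (n : ZMod (m + 1)) := by
  rw [loff, val_nat (by omega), if_pos h2]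

theorem loff_high {n : ℕ} (h1 : 1 ≤ n) (h2 : n ≤ m) :
    loff m ((n + m : ℕ) : ZMod (2 * m + 1)) = (n : ZMod (m + 1)) := by
  rw [loff, val_nat (by omega), if_neg (by omega), Nat.add_sub_cancel]

theorem loff_zero : loff m 0 = 0 := by
  have h := loff_low (m := m) (n := 0) (Nat.zero_le _)
  simpa using h

theorem loff_poff (t : ZMod (2 * m + 1)) : loff m (poff m t) = loff m t := by
  rcases cases_off t with rfl | ⟨n, h1, h2, rfl⟩ | ⟨n, h1, h2, rfl⟩
  · rw [poff_zero]
  · rw [poff_low h1 h2, loff_low h2, loff_high h1 h2]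
  · rw [poff_high h1 h2, loff_low h2, loff_high h1 h2]

theorem loff_inj {t t' : ZMod (2 * m + 1)} (h : loff m t = loff m t') :
    t' = t ∨ t' = poff m t := by
  have key : ∀ {n r : ℕ}, n ≤ m → r ≤ m → (n : ZMod (m + 1)) = (r : ZMod (m + 1)) → n = r := by
    intro n r hn hr h
    have h1 := congrArg ZMod.val h
    rwa [ZMod.val_natCast, ZMod.val_natCast, Nat.mod_eq_of_lt (by omega),
      Nat.mod_eq_of_lt (by omega)] at h1
  rcases cases_off t with rfl | ⟨n, h1, h2, rfl⟩ | ⟨n, h1, h2, rfl⟩ <;>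
  rcases cases_off t' with rfl | ⟨r, h3, h4, rfl⟩ | ⟨r, h3, h4, rfl⟩
  · exact Or.inl rfl
  · exfalso
    rw [loff_zero, loff_low h4, ← Nat.cast_zero] at h
    have := key (by omega) h4 h
    omega
  · exfalso
    rw [loff_zero, loff_high h3 h4, ← Nat.cast_zero] at h
    have := key (by omega) h4 h
    omega
  · exfalso
    rw [loff_zero, loff_low h2, ← Nat.cast_zero] at h
    have := key h2 (by omega) h
    omega
  · left
    rw [loff_low h2, loff_low h4] at h
    rw [key h2 h4 h]
  · right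
    rw [loff_low h2, loff_high h3 h4] at h
    rw [poff_low h1 h2, key h2 h4 h]
  · exfalso
    rw [loff_zero, loff_high h1 h2, ← Nat.cast_zero] at h
    have := key h2 (by omega) h
    omega
  · right
    rw [loff_high h1 h2, loff_low h4] at h
    rw [poff_high h1 h2, key h2 h4 h]
  · left
    rw [loff_high h1 h2, loff_high h3 h4] at h
    rw [key h2 h4 h]

/-- Moving the unmatched vertex by one step. -/
theorem poff_shift (t : ZMod (2 * m + 1)) (h0 : t ≠ 0) (h1 : t ≠ 1)
    (h2 : t ≠ (m : ZMod (2 * m + 1)) + 1) : poff m (t - 1) = poff m t - 1 := by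
  rcases cases_off t with rfl | ⟨n, h3, h4, rfl⟩ | ⟨n, h3, h4, rfl⟩
  · exact absurd rfl h0
  · have h5 : n ≠ 1 := by
      rintro rfl
      exact h1 Nat.cast_one
    have h6 : (n : ZMod (2 * m + 1)) - 1 = ((n - 1 : ℕ) : ZMod (2 * m + 1)) := by
      rw [Nat.cast_sub (by omega), Nat.cast_one]
    rw [h6, poff_low (by omega) (by omega), poff_low h3 h4]
    rw [show n + m = (n - 1 + m) + 1 by omega]
    push_cast
    ring
  · have h5 : n ≠ 1 := by
      rintro rfl
      apply h2
      push_cast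
      ring
    have h6 : ((n + m : ℕ) : ZMod (2 * m + 1)) - 1 = ((n - 1 + m : ℕ) : ZMod (2 * m + 1)) := by
      rw [show n + m = (n - 1 + m) + 1 by omega]
      push_cast
      ring
    rw [h6, poff_high (by omega) (by omega), poff_high h3 h4, Nat.cast_sub (by omega),
      Nat.cast_one]

theorem loff_shift (t : ZMod (2 * m + 1))
    (h2 : t ≠ (m : ZMod (2 * m + 1)) + 1) : loff m (t - 1) = loff m t - 1 := by
  rcases Nat.eq_zero_or_pos m with hm | hm
  · subst hm
    exact Subsingleton.elim (α := Fin 1) _ _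
  rcases cases_off t with rfl | ⟨n, h3, h4, rfl⟩ | ⟨n, h3, h4, rfl⟩
  · have h6 : (0 : ZMod (2 * m + 1)) - 1 = ((m + m : ℕ) : ZMod (2 * m + 1)) := by
      rw [zero_sub, neg_eq_iff_add_eq_zero, ← Nat.cast_one (R := ZMod (2 * m + 1)),
        ← Nat.cast_add, ← two_m]
      congr 1
      omega
    rw [h6, loff_high hm le_rfl, loff_zero, zero_sub, eq_neg_iff_add_eq_zero,
      ← Nat.cast_one (R := ZMod (m + 1)), ← Nat.cast_add, ZMod.natCast_self]
  · have h6 : (n : ZMod (2 * m + 1)) - 1 = ((n - 1 : ℕ) : ZMod (2 * m + 1)) := by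
      rw [Nat.cast_sub (by omega), Nat.cast_one]
    rw [h6, loff_low (by omega), loff_low h4, Nat.cast_sub (by omega), Nat.cast_one]
  · have h5 : n ≠ 1 := by
      rintro rfl
      apply h2
      push_cast
      ring
    have h6 : ((n + m : ℕ) : ZMod (2 * m + 1)) - 1 = ((n - 1 + m : ℕ) : ZMod (2 * m + 1)) := by
      rw [show n + m = (n - 1 + m) + 1 by omega]
      push_cast
      ring
    rw [h6, loff_high (by omega) (by omega), loff_high h3 h4, Nat.cast_sub (by omega),
      Nat.cast_one]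

/-! The same statements for `prt` and `lab`. -/

theorem prt_self (u : ZMod (2 * m + 1)) : prt m u u = u := by
  rw [prt, sub_self, poff_zero, add_zero]

theorem prt_prt (u i : ZMod (2 * m + 1)) : prt m u (prt m u i) = i := by
  rw [prt, prt, add_sub_cancel_left, poff_poff]
  ring

theorem prt_ne {u i : ZMod (2 * m + 1)} (h : i ≠ u) : prt m u i ≠ i := by
  intro h1
  apply poff_ne (i - u) (sub_ne_zero.mpr h)
  rw [prt] at h1
  linear_combination h1

theorem prt_one (hm : 1 ≤ m) (u : ZMod (2 * m + 1)) :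
    prt m u (u + 1) = u + (m + 1) := by
  rw [prt, add_sub_cancel_left, ← Nat.cast_one (R := ZMod (2 * m + 1)), poff_low le_rfl hm]
  push_cast
  ring

theorem prt_m1 (hm : 1 ≤ m) (u : ZMod (2 * m + 1)) :
    prt m u (u + (m + 1)) = u + 1 := by
  rw [← prt_one hm, prt_prt]

theorem prt_back (hm : 1 ≤ m) (u : ZMod (2 * m + 1)) :
    prt m (u + 1) u = u + (m + 1) := by
  have h6 : u - (u + 1) = ((m + m : ℕ) : ZMod (2 * m + 1)) := by
    have h7 : ((m + m + 1 : ℕ) : ZMod (2 * m + 1)) = 0 := by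
      rw [← two_m]
      congr 1
      omega
    push_cast at h7 ⊢
    linear_combination -h7
  rw [prt, h6, poff_high hm le_rfl]
  ring

theorem prt_back' (hm : 1 ≤ m) (u : ZMod (2 * m + 1)) :
    prt m (u + 1) (u + (m + 1)) = u := by
  rw [← prt_back hm, prt_prt]

theorem prt_shift {u i : ZMod (2 * m + 1)} (h0 : i ≠ u) (h1 : i ≠ u + 1)
    (h2 : i ≠ u + (m + 1)) : prt m (u + 1) i = prt m u i := by
  rw [prt, prt, show i - (u + 1) = (i - u) - 1 by ring, poff_shift]
  · ring
  · exact sub_ne_zero.mpr h0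
  · intro h
    exact h1 (by rw [← h]; ring)
  · intro h
    exact h2 (by rw [← h]; ring)

theorem lab_self (u : ZMod (2 * m + 1)) : lab m u u = 0 := by
  rw [lab, sub_self, loff_zero]

theorem lab_prt (u i : ZMod (2 * m + 1)) : lab m u (prt m u i) = lab m u i := by
  rw [lab, prt, add_sub_cancel_left, loff_poff, lab]

theorem lab_inj {u i j : ZMod (2 * m + 1)} (h : lab m u i = lab m u j) :
    j = i ∨ j = prt m u i := by
  rcases loff_inj h with h1 | h1
  · left
    exact sub_left_injective h1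
  · right
    rw [prt, ← h1]
    ring

theorem lab_one (hm : 1 ≤ m) (u : ZMod (2 * m + 1)) : lab m u (u + 1) = 1 := by
  rw [lab, add_sub_cancel_left, ← Nat.cast_one (R := ZMod (2 * m + 1)), loff_low hm,
    Nat.cast_one]

theorem lab_m1 (hm : 1 ≤ m) (u : ZMod (2 * m + 1)) : lab m u (u + (m + 1)) = 1 := by
  rw [← prt_one hm, lab_prt, lab_one hm]

theorem lab_shift {u i : ZMod (2 * m + 1)} (h2 : i ≠ u + (m + 1)) :
    lab m (u + 1) i = lab m u i - 1 := by
  rw [lab, lab, show i - (u + 1) = (i - u) - 1 by ring, loff_shift]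
  intro h
  exact h2 (by rw [← h]; ring)

theorem m_ne (hm : 1 ≤ m) (u : ZMod (2 * m + 1)) : u ≠ u + ((m : ZMod (2 * m + 1)) + 1) := by
  intro h
  have h1 : ((m + 1 : ℕ) : ZMod (2 * m + 1)) = ((0 : ℕ) : ZMod (2 * m + 1)) := by
    push_cast
    linear_combination -h
  have := nat_inj (by omega) (by omega) h1
  omega

theorem one_ne (hm : 1 ≤ m) (u : ZMod (2 * m + 1)) : u + 1 ≠ u := by
  intro h
  have h1 : ((1 : ℕ) : ZMod (2 * m + 1)) = ((0 : ℕ) : ZMod (2 * m + 1)) := by
    push_cast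
    linear_combination h
  have := nat_inj (by omega) (by omega) h1
  omega

theorem one_ne_m (hm : 1 ≤ m) (u : ZMod (2 * m + 1)) :
    u + 1 ≠ u + ((m : ZMod (2 * m + 1)) + 1) := by
  intro h
  have h1 : ((1 : ℕ) : ZMod (2 * m + 1)) = ((m + 1 : ℕ) : ZMod (2 * m + 1)) := by
    push_cast
    linear_combination h
  have := nat_inj (by omega) (by omega) h1
  omega

theorem lab_back (hm : 1 ≤ m) (u : ZMod (2 * m + 1)) : lab m (u + 1) (u + (m + 1)) = -1 := by
  rw [← prt_back hm, lab_prt, lab_shift (m_ne hm u), lab_self]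
  ring

end ring

end Pool.Agent.Helper19.TT
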